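import Pool.Agent.H447R3.SpDefs
import Pool.Agent.TH720.LB.Defs
import Pool.Agent.H914R2.HodgeDefs

/-!
# Generic hyperplane sections: definitions
-/

set_option autoImplicit false

open CategoryTheory AlgebraicGeometry

universe u v

namespace Pool.Agent.N190.CB

section Alg

variable {K K' : Type*} [Field K] [Field K'] {A A' B B' : Type*} [Ring A] [Algebra K A] [Ring A']
  [Algebra K' A'] [Ring B] [Ring B']

/-- The ring homomorphism `ρ` is semilinear for `σ`, and `ρ₂` is compatible with `ρ` and with the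
pull-backs `p`, `q` and `p'`, `q'` for the two projections. -/
structure IsCompatible (σ : K →+* K') (ρ : A →+* A') (ρ₂ : B →+* B') (p q : A → B)
    (p' q' : A' → B') : Prop where
  smul : ∀ (c : K) (x : A), ρ (c • x) = σ c • ρ x
  fst : ∀ x, ρ₂ (p x) = p' (ρ x)
  snd : ∀ x, ρ₂ (q x) = q' (ρ x)

/-- The vanishing classes: the elements `v` of `gr' n` with `tr' (ρ x * v) = 0` for all `x`. -/
def Vanishing (gr' : ℕ → Submodule K' A') (tr' : A' →ₗ[K'] K') (ρ : A →+* A') (n : ℕ) : Set A' :=
  {v | v ∈ gr' n ∧ ∀ x, tr' (ρ x * v) = 0}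

/-- The map `ρ` looks like the restriction to a smooth hyperplane section of dimension `n` with the
class `ξ`: it preserves the degrees, `tr' (ρ x) = tr (ξ x)`, it is injective in the degrees below
`n`, the elements of `A'` are sums of linear combinations of restrictions and of vanishing classes,
and there are vanishing classes different from zero. -/
structure IsHyperplane (gr : ℕ → Submodule K A) (gr' : ℕ → Submodule K' A') (tr : A →ₗ[K] K)
    (tr' : A' →ₗ[K'] K') (σ : K →+* K') (ρ : A →+* A') (ξ : A) (n : ℕ) : Prop where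
  mem : ∀ i, ∀ x ∈ gr i, ρ x ∈ gr' i
  tr_res : ∀ x, tr' (ρ x) = σ (tr (ξ * x))
  weak : ∀ i < n, ∀ x ∈ gr i, ρ x = 0 → x = 0
  span : ∀ b : A', ∃ r ∈ Submodule.span K' (Set.range ρ), ∃ v ∈ Vanishing gr' tr' ρ n, b = r + v
  vanishing : ∃ v ∈ Vanishing gr' tr' ρ n, v ≠ 0

/-- The classes in `C` restrict to classes in `C'`, and up to rational multiples of `δ` all classes
in `C'` are such restrictions. -/
structure RestrictsOnto (K' : Type*) [Field K'] {B' : Type*} [Ring B'] [Algebra K' B']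
    (ρ₂ : B →+* B') (C : Set B) (C' : Set B') (δ : B') : Prop where
  restrict : ∀ y ∈ C, ρ₂ y ∈ C'
  onto : ∀ z ∈ C', ∃ y ∈ C, ∃ c : ℚ, z = ρ₂ y + (c : K') • δ

end Alg

open Pool.Agent.H914 VarClass Obj WeilCohomology

variable {k : Type u} [Field k] {𝒱 : VarClass k} {ops : CycleOps 𝒱}
  {k' : Type u} [Field k'] {𝒱' : VarClass k'} {ops' : CycleOps 𝒱'}

/-- The class of the diagonal. -/
noncomputable def diagClass (W : WeilCohomology.{u, v} ops) (X : 𝒱.Obj) : W.H (X.prod X) :=
  W.push (diag X) 1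

/-- The variety `Z` over the field `k'` looks like the generic hyperplane section of the variety `V`
over `k` for the sufficiently ample divisor `D`; here `k'` is the function field of the space of the
hyperplanes. The maps `res` and `res₂` are the restrictions of the classes on `V` to `Z` and of the
classes on `V × V` to `Z × Z`; the correspondences of degree `0` on `Z` are restrictions of cycles
on `V × V` up to multiples of the diagonal. -/
structure GenericSection (W : WeilCohomology.{u, v} ops) (W' : WeilCohomology.{u, v} ops')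
    {V : 𝒱.Obj} (D : V.Cycles) (Z : 𝒱'.Obj) where
  /-- the inclusion of the coefficient fields -/
  σ : W.K →+* W'.K
  /-- the restriction of the classes on `V` to `Z` -/
  res : W.H V →+* W'.H Z
  /-- the restriction of the classes on `V × V` to `Z × Z` -/
  res₂ : W.H (V.prod V) →+* W'.H (Z.prod Z)
  dim : V.dim = Z.dim + 1
  compatible : IsCompatible σ res res₂ (W.map (fst V V)) (W.map (snd V V)) (W'.map (fst Z Z))
    (W'.map (snd Z Z))
  hyperplane : IsHyperplane (W.gr V) (W'.gr Z) (W.tr V) (W'.tr Z) σ res (W.cl V D) Z.dim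
  generic : RestrictsOnto W'.K res₂ (algClasses W (V.prod V) Z.dim)
    (algClasses W' (Z.prod Z) Z.dim) (diagClass W' Z)

namespace GenericSection

variable {W : WeilCohomology.{u, v} ops} {W' : WeilCohomology.{u, v} ops'} {V : 𝒱.Obj}
  {D : V.Cycles} {Z : 𝒱'.Obj} (G : GenericSection W W' D Z)
include G

lemma res_smul (c : W.K) (x : W.H V) : G.res (c • x) = G.σ c • G.res x := G.compatible.smul c x

lemma res_mem (i : ℕ) (x : W.H V) (hx : x ∈ W.gr V i) : G.res x ∈ W'.gr Z i :=
  G.hyperplane.mem i x hx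

lemma res_fst (x : W.H V) : G.res₂ (W.map (fst V V) x) = W'.map (fst Z Z) (G.res x) :=
  G.compatible.fst x

lemma res_snd (x : W.H V) : G.res₂ (W.map (snd V V) x) = W'.map (snd Z Z) (G.res x) :=
  G.compatible.snd x

lemma tr_res (x : W.H V) : W'.tr Z (G.res x) = G.σ (W.tr V (W.cl V D * x)) :=
  G.hyperplane.tr_res x

lemma weak (i : ℕ) (hi : i < Z.dim) (x : W.H V) (hx : x ∈ W.gr V i) (h : G.res x = 0) : x = 0 :=
  G.hyperplane.weak i hi x hx h

lemma span (b : W'.H Z) : ∃ r ∈ Submodule.span W'.K (Set.range G.res), ∃ v ∈ W'.gr Z Z.dim,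
    (∀ x, W'.tr Z (G.res x * v) = 0) ∧ b = r + v := by
  obtain ⟨r, hr, v, ⟨hv, hv'⟩, e⟩ := G.hyperplane.span b
  exact ⟨r, hr, v, hv, hv', e⟩

lemma vanishing : ∃ v ∈ W'.gr Z Z.dim, v ≠ 0 ∧ ∀ x, W'.tr Z (G.res x * v) = 0 := by
  obtain ⟨v, ⟨hv, hv'⟩, h0⟩ := G.hyperplane.vanishing
  exact ⟨v, hv, h0, hv'⟩

lemma restrict (y : (V.prod V).Cycles) (hy : (V.prod V).IsCyc Z.dim y) :
    ∃ z, (Z.prod Z).IsCyc Z.dim z ∧ W'.cl (Z.prod Z) z = G.res₂ (W.cl (V.prod V) y) := by
  obtain ⟨z, hz, e⟩ := G.generic.restrict _ ⟨y, hy, rfl⟩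
  exact ⟨z, hz, e⟩

lemma cycles (z : (Z.prod Z).Cycles) (hz : (Z.prod Z).IsCyc Z.dim z) :
    ∃ y, (V.prod V).IsCyc Z.dim y ∧ ∃ c : ℚ, W'.cl (Z.prod Z) z =
      G.res₂ (W.cl (V.prod V) y) + (c : W'.K) • W'.push (diag Z) 1 := by
  obtain ⟨_, ⟨y, hy, rfl⟩, c, e⟩ := G.generic.onto _ ⟨z, hz, rfl⟩
  exact ⟨y, hy, c, e⟩

end GenericSection

/-- A Weil cohomology theory over some field, for some class of varieties. -/
structure Theory where
  /-- the base field -/
  k : Type u
  [field : Field k]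
  /-- the class of varieties -/
  𝒱 : VarClass k
  /-- the operations on cycles -/
  ops : CycleOps 𝒱
  /-- the cohomology theory -/
  W : WeilCohomology.{u, v} ops

attribute [instance] Theory.field

/-- The data for the `dim X` generic hyperplane sections attached to `X` and the divisor `D`: for
`1 ≤ c ≤ dim X` a variety `Q c` of dimension `2 c - 2` with a divisor `h c` which satisfies hard
Lefschetz and the conjecture B (for example a projective space), and the generic hyperplane section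
`Z c` of `X × X × Q c` for the sum of the divisors `D`, `D`, `h c`, over another field, with the
theory `T c`. -/
structure SectionSystem (W : WeilCohomology.{u, v} ops) (X : 𝒱.Obj) (D : X.Cycles)
    (Q : ℕ → 𝒱.Obj) (h : ∀ c, (Q c).Cycles) (T : ℕ → Theory.{u, v}) (Z : ∀ c, (T c).𝒱.Obj) :
    Prop where
  div : ∀ c ∈ Set.Icc 1 X.dim, (Q c).IsCyc 1 (h c)
  hard : ∀ c ∈ Set.Icc 1 X.dim, HardLefschetz W (Q c) (h c)
  lef : ∀ c ∈ Set.Icc 1 X.dim, LefschetzB W (Q c) (h c)
  dim : ∀ c ∈ Set.Icc 1 X.dim, (Q c).dim = 2 * c - 2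
  sections : ∀ c ∈ Set.Icc 1 X.dim, Nonempty (GenericSection W (T c).W
    (V := (X.prod X).prod (Q c)) (TH720.LB.sumDiv ops (TH720.LB.sumDiv ops D D) (h c)) (Z c))

/-- `𝒯` is a class of Weil cohomology theories over various fields, and `Pol T X D` means that the
divisor `D` on `X` is one of the chosen polarizations (for example: all sufficiently ample
divisors). They satisfy hard Lefschetz and are closed under products, there is a polarized variety of
every dimension, and the polarized varieties of dimension at least two have polarized generic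
hyperplane sections, over the fields of the class. -/
structure HasSections (𝒯 : Set Theory.{u, v})
    (Pol : ∀ T : Theory.{u, v}, ∀ X : T.𝒱.Obj, X.Cycles → Prop) : Prop where
  div : ∀ T ∈ 𝒯, ∀ X D, Pol T X D → X.IsCyc 1 D
  hard : ∀ T ∈ 𝒯, ∀ X D, Pol T X D → HardLefschetz T.W X D
  prod : ∀ T ∈ 𝒯, ∀ X D Y E, Pol T X D → Pol T Y E →
    Pol T (X.prod Y) (TH720.LB.sumDiv T.ops D E)
  exists_dim : ∀ T ∈ 𝒯, ∀ m, ∃ (P : T.𝒱.Obj) (h : P.Cycles), P.dim = m ∧ Pol T P h
  sections : ∀ T ∈ 𝒯, ∀ (V : T.𝒱.Obj) (D : V.Cycles), Pol T V D → 2 ≤ V.dim →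
    ∃ T' ∈ 𝒯, ∃ (Z : T'.𝒱.Obj) (E : Z.Cycles), Pol T' Z E ∧
      Nonempty (GenericSection T.W T'.W D Z)

/-- The statement `S` holds for all polarized varieties of the theories in `𝒯`. -/
def ForAllPol (𝒯 : Set Theory.{u, v})
    (Pol : ∀ T : Theory.{u, v}, ∀ X : T.𝒱.Obj, X.Cycles → Prop)
    (S : ∀ T : Theory.{u, v}, ∀ X : T.𝒱.Obj, X.Cycles → Prop) : Prop :=
  ∀ T ∈ 𝒯, ∀ (X : T.𝒱.Obj) (D : X.Cycles), Pol T X D → S T X D

end Pool.Agent.N190.CB
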