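import Pool.Agent.N190.CB.Step3

/-!
# From the square `X × X` to `X`, with the sign conjecture only

`X` satisfies the sign conjecture. If `L ^ (2 c - 1)` has an algebraic left inverse on the cohomology
of `X × X` in degree `2 (dim X - c)`, then some algebraic correspondence of degree `-c` is injective
on `H^(dim X + c)(X)`.
-/

set_option autoImplicit false

open CategoryTheory AlgebraicGeometry Finset TensorProduct

universe u v

namespace Pool.Agent.N190.CB

open Pool.Agent.H914 VarClass Obj WeilCohomology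

variable {k : Type u} [Field k] {𝒱 : VarClass k} {ops : CycleOps 𝒱}
  {W : WeilCohomology.{u, v} ops} {X Y Z : 𝒱.Obj}

lemma par_comm {d : ℤ} {a : Module.End W.K (W.H X)} (ha : a ∈ KOp W X X d) :
    par (W.isInternal X) * a = a * par (W.isInternal X) := by
  apply gr_ext (W.isInternal X)
  intro i x hx
  have h1 := KOp.isHom ha i x (by rw [grZ_natCast]; exact hx)
  rw [Module.End.mul_apply, Module.End.mul_apply, par, scal_apply _ _ hx, map_smul]
  by_cases hj : 0 ≤ (i : ℤ) + 2 * d
  · obtain ⟨r, hr⟩ := Int.eq_ofNat_of_zero_le hj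
    rw [hr, grZ_natCast] at h1
    rw [scal_apply _ _ h1]
    congr 1
    rcases Nat.even_or_odd i with h | h
    · have : Even r := by
        rw [← Int.even_coe_nat, ← hr]
        exact ((Int.even_coe_nat i).2 h).add (even_two_mul d)
      rw [h.neg_one_pow, this.neg_one_pow]
    · have : Odd r := by
        rw [← Int.odd_coe_nat, ← hr]
        exact ((Int.odd_coe_nat i).2 h).add_even (even_two_mul d)
      rw [h.neg_one_pow, this.neg_one_pow]
  · rw [grZ_of_neg (by omega)] at h1
    rw [(Submodule.mem_bot _).1 h1, map_zero, smul_zero]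

lemma str_comm {d : ℤ} {a : Module.End W.K (W.H X)} (ha : a ∈ KOp W X X d)
    (b : Module.End W.K (W.H X)) : str W X (a * b) = str W X (b * a) := by
  rw [str_apply, str_apply, ← mul_assoc, par_comm ha, mul_assoc, LinearMap.trace_mul_comm,
    mul_assoc]

/-- Operators of degree `0` preserve the degrees. -/
lemma kop_mem {a : Module.End W.K (W.H X)} (ha : a ∈ KOp W X X 0) {i : ℕ} {x : W.H X}
    (hx : x ∈ W.gr X i) : a x ∈ W.gr X i := by
  have h1 := KOp.isHom ha i x (by rw [grZ_natCast]; exact hx)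
  rwa [mul_zero, add_zero, grZ_natCast] at h1

lemma proj_comm {a : Module.End W.K (W.H X)} (ha : a ∈ KOp W X X 0) (i : ℕ) :
    proj (W.isInternal X) i * a = a * proj (W.isInternal X) i := by
  apply gr_ext (W.isInternal X)
  intro j x hx
  rw [Module.End.mul_apply, Module.End.mul_apply]
  by_cases hij : j = i
  · subst hij
    rw [proj_same _ hx, proj_same _ (kop_mem ha hx)]
  · rw [proj_ne _ hx hij, proj_ne _ (kop_mem ha hx) hij, map_zero]

/-- With the sign conjecture, numerically trivial operators are nilpotent. -/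
lemma nilp_num (hp : par (W.isInternal X) ∈ KOp W X X 0) {r : Module.End W.K (W.H X)}
    (hr : r ∈ KOp W X X 0) (h : ∀ b ∈ KOp W X X 0, str W X (r * b) = 0) : IsNilpotent r := by
  apply isNilpotent_of_trace_pow
  intro m
  have hrm : r ^ m ∈ KOp W X X 0 := KOp.cast (kop_pow hr m) (by ring)
  have h1 := h (r ^ m * par (W.isInternal X)) (KOp.cast (kop_mul hrm hp) (by ring))
  rw [str_apply, ← mul_assoc, ← mul_assoc, LinearMap.trace_mul_comm, ← mul_assoc, ← mul_assoc,
    par_mul_par, one_mul, ← pow_succ'] at h1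
  exact h1

lemma trace_eq_zero_of_nilp {V : Type*} {K : Type*} [Field K] [AddCommGroup V] [Module K V]
    {a : Module.End K V} (h : IsNilpotent a) : LinearMap.trace K V a = 0 :=
  (LinearMap.isNilpotent_trace_of_isNilpotent h).eq_zero

lemma par_prod (hX : par (W.isInternal X) ∈ KOp W X X 0) (hZ : par (W.isInternal Z) ∈ KOp W Z Z 0) :
    par (W.isInternal (X.prod Z)) ∈ KOp W (X.prod Z) (X.prod Z) 0 := by
  have e : par (W.isInternal (X.prod Z)) =
      extOp W (par (W.isInternal X)) (par (W.isInternal Z)) := by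
    apply ext_kunneth_lin
    intro a b
    rw [extOp_tmul]
    refine gr_induction (W.isInternal X) (p := fun a =>
      par (W.isInternal (X.prod Z)) (W.map (fst X Z) a * W.map (snd X Z) b) =
        W.map (fst X Z) (par (W.isInternal X) a) * W.map (snd X Z) (par (W.isInternal Z) b)) ?_ ?_ a
    · intro i a ha
      refine gr_induction (W.isInternal Z) (p := fun b =>
        par (W.isInternal (X.prod Z)) (W.map (fst X Z) a * W.map (snd X Z) b) =
          W.map (fst X Z) (par (W.isInternal X) a) * W.map (snd X Z) (par (W.isInternal Z) b))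
        ?_ ?_ b
      · intro j b hb
        rw [par, par, par, scal_apply _ _ ha, scal_apply _ _ hb,
          scal_apply _ _ (W.mul_mem (W.map_mem _ ha) (W.map_mem _ hb)), map_smul, map_smul,
          smul_mul_smul_comm, ← pow_add]
      · intro b b' hb hb'
        rw [map_add, mul_add, map_add, hb, hb', map_add, map_add, mul_add]
    · intro a a' ha ha'
      rw [map_add, add_mul, map_add, ha, ha', map_add, map_add, add_mul]
  rw [e]
  exact KOp.cast (KOp.ext hX hZ) (by ring)

/-- External products of a class with itself vanish only if the class does. -/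
lemma eq_zero_of_tmul {x : W.H X} (h : W.map (fst X X) x * W.map (snd X X) x = 0) : x = 0 := by
  by_contra hx
  obtain ⟨f, hf⟩ : ∃ f : Module.Dual W.K (W.H X), f x ≠ 0 := by
    by_contra hf
    push Not at hf
    exact hx ((Module.forall_dual_apply_eq_zero_iff W.K x).1 hf)
  rw [← kappa_tmul, LinearEquiv.map_eq_zero_iff] at h
  have h1 := congrArg (TensorProduct.lid W.K W.K ∘ TensorProduct.map f f) h
  simp only [Function.comp_apply, TensorProduct.map_tmul, TensorProduct.lid_tmul, map_zero,
    smul_eq_mul] at h1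
  exact hf (mul_self_eq_zero.1 h1)

/-- **The operators orthogonal to the multiples of `L ^ c` are nilpotent in degree `i`.** -/
lemma trace_eq_zero {ξ : W.H X} (hξ : ξ ∈ W.gr X (2 * 1))
    (hLk : LinearMap.mulLeft W.K ξ ∈ KOp W X X 1) {c i : ℕ} (hc : 1 ≤ c)
    (hp : par (W.isInternal X) ∈ KOp W X X 0) {S : Module.End W.K (W.H (X.prod X))}
    (hS : S ∈ KOp W (X.prod X) (X.prod X) (-(2 * (c : ℤ) - 1)))
    (hSL : ∀ a ∈ W.gr (X.prod X) (2 * i),
      S ((LinearMap.mulLeft W.K (W.map (fst X X) ξ + W.map (snd X X) ξ) ^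
        (2 * c - 1)) a) = a)
    {q : Module.End W.K (W.H X)} (hq : q ∈ KOp W X X 0)
    (hJ : ∀ u ∈ KOp W X X (-c), str W X (u * LinearMap.mulLeft W.K ξ ^ c * q) = 0)
    {b : Module.End W.K (W.H X)} (hb : b ∈ KOp W X X 0) :
    LinearMap.trace W.K (W.H X) (proj (W.isInternal X) i * (q * b)) = 0 := by
  set L := LinearMap.mulLeft W.K ξ with hL
  set M := LinearMap.mulLeft W.K (W.map (fst X X) ξ + W.map (snd X X) ξ) with hM
  have hLp : ∀ a : ℕ, L ^ a ∈ KOp W X X a := fun a => KOp.cast (kop_pow hLk a) (by ring)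
  set e := q * b with he
  have hek : e ∈ KOp W X X 0 := KOp.cast (kop_mul hq hb) (by ring)
  have hMk : M ∈ KOp W (X.prod X) (X.prod X) 1 := by
    rw [hM, mulLeft_sum ξ hξ]
    exact Submodule.add_mem _ (KOp.cast (KOp.ext hLk (KOp.id X)) (by ring))
      (KOp.cast (KOp.ext (KOp.id X) hLk) (by ring))
  have hJ' : ∀ u ∈ KOp W X X (-c), str W X (u * L ^ c * e) = 0 := by
    intro u hu
    have h1 := hJ (b * u) (KOp.cast (kop_mul hb hu) (by ring))
    have h2 : u * L ^ c * e = (u * L ^ c * q) * b := by rw [he, ← mul_assoc]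
    rw [h2, ← str_comm hb, ← mul_assoc, ← mul_assoc]
    exact h1
  set Yo := S * (M ^ (2 * c - 1) * extOp W e e) with hY
  have hYk : Yo ∈ KOp W (X.prod X) (X.prod X) 0 :=
    KOp.cast (kop_mul hS (kop_mul (kop_pow hMk _) (KOp.ext hek hek)))
      (by push_cast [Nat.cast_sub (show 1 ≤ 2 * c by omega)]; ring)
  have hnum : ∀ B ∈ KOp W (X.prod X) (X.prod X) 0, str W (X.prod X) (Yo * B) = 0 := by
    intro B hB
    have hBS : B * S ∈ KOp W (X.prod X) (X.prod X) (-(2 * (c : ℤ) - 1)) :=
      KOp.cast (kop_mul hB hS) (by ring)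
    rw [← str_comm hB, hY, ← mul_assoc B S, hM, mulLeft_sum ξ hξ, ← hL, sum_pow, Finset.sum_mul,
      Finset.mul_sum, map_sum]
    apply Finset.sum_eq_zero
    intro a ha
    rw [Finset.mem_range] at ha
    rw [smul_mul_assoc, mul_smul_comm, map_smul, extOp_mul]
    suffices h : str W (X.prod X) (B * S * extOp W (L ^ a * e) (L ^ (2 * c - 1 - a) * e)) = 0 by
      rw [h, smul_zero]
    rcases le_or_gt c a with h | h
    · obtain ⟨T', hT', h1⟩ := ptrace_left hBS (kop_mul (hLp (2 * c - 1 - a)) hek)
      rw [h1 (kop_mul (hLp a) hek)]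
      have e2 : T' * (L ^ a * e) = T' * L ^ (a - c) * L ^ c * e := by
        rw [mul_assoc T', ← pow_add, Nat.sub_add_cancel h, mul_assoc]
      rw [e2]
      exact hJ' _ (KOp.cast (kop_mul hT' (hLp (a - c))) (by omega))
    · obtain ⟨T', hT', h1⟩ := ptrace_right hBS (kop_mul (hLp a) hek)
      rw [h1 (kop_mul (hLp (2 * c - 1 - a)) hek)]
      have e2 : T' * (L ^ (2 * c - 1 - a) * e) = T' * L ^ (2 * c - 1 - a - c) * L ^ c * e := by
        rw [mul_assoc T', ← pow_add, Nat.sub_add_cancel (by omega), mul_assoc]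
      rw [e2]
      exact hJ' _ (KOp.cast (kop_mul hT' (hLp (2 * c - 1 - a - c))) (by omega))
  obtain ⟨m, hm⟩ := nilp_num (par_prod hp hp) hYk hnum
  have hes : ∀ s : ℕ, ∀ a ∈ W.gr X i, (e ^ s) a ∈ W.gr X i := fun s a ha =>
    kop_mem (KOp.cast (kop_pow hek s) (by ring)) ha
  have hpow : ∀ s : ℕ, ∀ a ∈ W.gr X i, (Yo ^ s) (W.map (fst X X) a * W.map (snd X X) a) =
      W.map (fst X X) ((e ^ s) a) * W.map (snd X X) ((e ^ s) a) := by
    intro s a ha
    induction s with
    | zero => rfl
    | succ s ih =>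
      rw [pow_succ', Module.End.mul_apply, ih, hY, Module.End.mul_apply, Module.End.mul_apply,
        extOp_tmul, hSL]
      · rw [pow_succ', Module.End.mul_apply]
        rfl
      · have h3 : e ((e ^ s) a) ∈ W.gr X i := kop_mem hek (hes s a ha)
        have := W.mul_mem (W.map_mem (fst X X) h3) (W.map_mem (snd X X) h3)
        rwa [← two_mul] at this
  have hnil : ∀ a ∈ W.gr X i, (e ^ m) a = 0 := by
    intro a ha
    apply eq_zero_of_tmul
    rw [← hpow m a ha, hm, LinearMap.zero_apply]
  apply trace_eq_zero_of_nilp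
  refine ⟨m + 1, ?_⟩
  have hc' : Commute (proj (W.isInternal X) i) e := proj_comm hek i
  rw [hc'.mul_pow]
  apply LinearMap.ext
  intro x
  have h4 : proj (W.isInternal X) i ^ (m + 1) = proj (W.isInternal X) i := by
    have hi : IsIdempotentElem (proj (W.isInternal X) i) := proj_mul_proj _ _
    exact hi.pow_succ_eq m
  rw [h4, (hc'.pow_right (m + 1)).eq, Module.End.mul_apply, pow_succ', Module.End.mul_apply,
    hnil _ (proj_mem _ _ _), map_zero, LinearMap.zero_apply]

/-- **From the square to the variety, with the sign conjecture.** -/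
theorem inj_of_square' {D : X.Cycles} (hD : X.IsCyc 1 D) (hHL : HardLefschetz W X D) {c : ℕ}
    (hc : 1 ≤ c) (hcn : c ≤ X.dim) (hp : par (W.isInternal X) ∈ KOp W X X 0)
    {S : Module.End W.K (W.H (X.prod X))}
    (hS : S ∈ KOp W (X.prod X) (X.prod X) (-(2 * (c : ℤ) - 1)))
    (hSL : ∀ a ∈ W.gr (X.prod X) (2 * (X.dim - c)),
      S ((LinearMap.mulLeft W.K (W.map (fst X X) (W.cl X D) + W.map (snd X X) (W.cl X D)) ^
        (2 * c - 1)) a) = a) :
    ∃ ν ∈ KOp W X X (-c), ∀ a ∈ W.gr X (X.dim + c), ν a = 0 → a = 0 := by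
  have hξ : W.cl X D ∈ W.gr X (2 * 1) := W.cl_mem hD
  have hLk : LinearMap.mulLeft W.K (W.cl X D) ∈ KOp W X X 1 :=
    mem_KS_iff.1 (Submodule.subset_span (rop_mulLeft hD))
  have key := fun {q} hq hJ {b} hb => trace_eq_zero hξ hLk hc hp hS hSL (q := q) hq hJ (b := b) hb
  set π := proj (W.isInternal X) (X.dim - c) with hπ'
  set L := LinearMap.mulLeft W.K (W.cl X D) with hL
  have hLp : ∀ a : ℕ, L ^ a ∈ KOp W X X a := fun a => KOp.cast (kop_pow hLk a) (by ring)
  have hπc : ∀ {a}, a ∈ KOp W X X 0 → π * a = a * π := fun ha => proj_comm ha _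
  by_contra hno
  let B : KOp W X X 0 →ₗ[W.K] KOp W X X 0 →ₗ[W.K] W.K :=
    LinearMap.mk₂ W.K (fun a b => str W X ((a : Module.End W.K (W.H X)) *
        (b : Module.End W.K (W.H X))))
      (fun a a' b => by rw [Submodule.coe_add, add_mul, map_add])
      (fun r a b => by rw [Submodule.coe_smul, smul_mul_assoc, map_smul])
      (fun a b b' => by rw [Submodule.coe_add, mul_add, map_add])
      (fun r a b => by rw [Submodule.coe_smul, mul_smul_comm, map_smul])
  let G : KOp W X X 0 →ₗ[W.K] KOp W X X 0 →ₗ[W.K] W.K :=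
    LinearMap.mk₂ W.K (fun a b => LinearMap.trace W.K (W.H X) (π *
        ((a : Module.End W.K (W.H X)) * (b : Module.End W.K (W.H X)))))
      (fun a a' b => by rw [Submodule.coe_add, add_mul, mul_add, map_add])
      (fun r a b => by rw [Submodule.coe_smul, smul_mul_assoc, mul_smul_comm, map_smul])
      (fun a b b' => by rw [Submodule.coe_add, mul_add, mul_add, map_add])
      (fun r a b => by rw [Submodule.coe_smul, mul_smul_comm, mul_smul_comm, map_smul])
  let J : Submodule W.K (KOp W X X 0) :=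
    ((KOp W X X (-c)).map (LinearMap.mulRight W.K (L ^ c))).comap (KOp W X X 0).subtype
  have hG : ∀ {a : KOp W X X 0}, (∀ b, B a b = 0) → ∀ b, G a b = 0 := by
    rintro ⟨a, ha⟩ h ⟨b, hb⟩
    have hab : a * b ∈ KOp W X X 0 := KOp.cast (kop_mul ha hb) (by ring)
    obtain ⟨m, hm⟩ := nilp_num hp hab (fun d hd => by
      rw [mul_assoc]
      exact h ⟨b * d, KOp.cast (kop_mul hb hd) (by ring)⟩)
    apply trace_eq_zero_of_nilp
    have hc' : Commute π (a * b) := hπc hab
    exact ⟨m, by rw [hc'.mul_pow, hm, mul_zero]⟩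
  obtain ⟨q, hq1, hq2⟩ := exists_perp B (J ⊔ LinearMap.ker G) (⟨1, KOp.id X⟩ : KOp W X X 0) (by
    rintro j hj r hrB e
    obtain ⟨⟨j', hj'⟩, ⟨u, hu, hu2⟩, g, hg, rfl⟩ := Submodule.mem_sup.1 hj
    have hu2' : u * L ^ c = j' := hu2
    obtain ⟨t, ht⟩ : ∃ t, t = g + r := ⟨_, rfl⟩
    have htG : ∀ b, G t b = 0 := fun b => by
      rw [ht, map_add, LinearMap.add_apply, hG hrB b, LinearMap.mem_ker.1 hg,
        LinearMap.zero_apply, add_zero]
    have htk : (t : Module.End W.K (W.H X)) ∈ KOp W X X 0 := t.2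
    have hc' : Commute π (t : Module.End W.K (W.H X)) := hπc htk
    have hidem : IsIdempotentElem π := proj_mul_proj _ _
    obtain ⟨m, hm⟩ : IsNilpotent (π * (t : Module.End W.K (W.H X))) := by
      apply isNilpotent_of_trace_pow
      intro m
      have h1 := htG ⟨(t : Module.End W.K (W.H X)) ^ m, KOp.cast (kop_pow htk m) (by ring)⟩
      rw [hc'.mul_pow, hidem.pow_succ_eq m, pow_succ']
      exact h1
    have e' : (1 : Module.End W.K (W.H X)) = u * L ^ c + (t : Module.End W.K (W.H X)) := by
      rw [hu2', ht]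
      have := congrArg Subtype.val e
      rw [Submodule.coe_add, Submodule.coe_add] at this
      rw [Submodule.coe_add, ← add_assoc]
      exact this
    apply hno
    refine ⟨u, hu, fun a ha h0 => ?_⟩
    obtain ⟨b, hb, rfl⟩ := (hHL (X.dim - c) (by omega)).2 a
      (by rwa [show 2 * X.dim - (X.dim - c) = X.dim + c by omega])
    rw [show X.dim - (X.dim - c) = c by omega] at h0 ⊢
    have hrb : (t : Module.End W.K (W.H X)) b = b := by
      have h1 := congrArg (fun F => F b) e'
      simp only [Module.End.one_apply, LinearMap.add_apply, Module.End.mul_apply] at h1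
      rw [show u ((L ^ c) b) = 0 from h0, zero_add] at h1
      exact h1.symm
    have hpb : π b = b := proj_same _ hb
    have hfix : ∀ s : ℕ, ((π * (t : Module.End W.K (W.H X))) ^ s) b = b := by
      intro s
      induction s with
      | zero => rfl
      | succ s ih =>
        rw [pow_succ, Module.End.mul_apply, Module.End.mul_apply, hrb, hpb, ih]
    have := hfix m
    rw [hm, LinearMap.zero_apply] at this
    rw [← this, map_zero])
  -- `q` is numerically trivial in degree `i`
  have hqk : (q : Module.End W.K (W.H X)) ∈ KOp W X X 0 := q.2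
  have hqJ : ∀ u ∈ KOp W X X (-c), str W X (u * L ^ c * (q : Module.End W.K (W.H X))) = 0 :=
    fun u hu => hq1 ⟨u * L ^ c, KOp.cast (kop_mul hu (hLp c)) (by ring)⟩
      (Submodule.mem_sup_left ⟨u, hu, rfl⟩)
  have hqG : ∀ b ∈ KOp W X X 0,
      LinearMap.trace W.K (W.H X) (π * ((q : Module.End W.K (W.H X)) * b)) = 0 :=
    fun b hb => key hqk hqJ hb
  have hqq : IsNilpotent ((q : Module.End W.K (W.H X)) * (q : Module.End W.K (W.H X))) := by
    apply nilp_num hp (KOp.cast (kop_mul hqk hqk) (by ring))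
    intro b hb
    have hbq : b * (q : Module.End W.K (W.H X)) ∈ KOp W X X 0 :=
      KOp.cast (kop_mul hb hqk) (by ring)
    have h1 := hq1 ⟨b * q, hbq⟩ (Submodule.mem_sup_right (by
      rw [LinearMap.mem_ker]
      apply LinearMap.ext
      rintro ⟨b', hb'⟩
      have h2 := hqG (b' * b) (KOp.cast (kop_mul hb' hb) (by ring))
      change LinearMap.trace W.K (W.H X) (π * (b * (q : Module.End W.K (W.H X)) * b')) = 0
      have e1 : π * (b * (q : Module.End W.K (W.H X)) * b') =
          b * (π * ((q : Module.End W.K (W.H X)) * b')) := by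
        rw [← mul_assoc b π, ← hπc hb]
        simp only [mul_assoc]
      have e2 : π * ((q : Module.End W.K (W.H X)) * b') * b =
          π * ((q : Module.End W.K (W.H X)) * (b' * b)) := by simp only [mul_assoc]
      rw [e1, LinearMap.trace_mul_comm, e2]
      exact h2))
    rw [← str_comm hb, ← mul_assoc]
    exact h1
  apply hq2
  change str W X (1 * (q : Module.End W.K (W.H X))) = 0
  rw [one_mul, str_apply]
  apply trace_eq_zero_of_nilp
  obtain ⟨m, hm⟩ := hqq
  have hc' : Commute (par (W.isInternal X)) (q : Module.End W.K (W.H X)) := par_comm hqk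
  refine ⟨2 * m, ?_⟩
  rw [hc'.mul_pow, pow_mul (q : Module.End W.K (W.H X)), sq, hm, mul_zero]

end Pool.Agent.N190.CB
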