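import Pool.Agent.N190.CB.Step3
import Pool.Agent.W534.Hyp

/-!
# Products with auxiliary varieties

From a left inverse of the Lefschetz operator of `V × Q` to a left inverse of the power
`L ^ (dim Q + 1)` of the Lefschetz operator of `V`.
-/

set_option autoImplicit false

open CategoryTheory AlgebraicGeometry Finset

universe u v

namespace Pool.Agent.N190.CB

open Pool.Agent.H914 Pool.Agent.W534 VarClass Obj WeilCohomology

variable {k : Type u} [Field k] {𝒱 : VarClass k} {ops : CycleOps 𝒱}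
  {W : WeilCohomology.{u, v} ops} {V Q : 𝒱.Obj}

/-- The alternating sum `∑ (-ξ) ^ a η ^ (w - a)`, `w = dim Q`, on the product. -/
noncomputable def alt (W : WeilCohomology.{u, v} ops) (V Q : 𝒱.Obj) (ξ : W.H V) (η : W.H Q) :
    W.H (V.prod Q) :=
  ∑ a ∈ range (Q.dim + 1), (-(W.map (fst V Q) ξ)) ^ a * W.map (snd V Q) η ^ (Q.dim + 1 - 1 - a)

lemma pow_mem_gr {ξ : W.H V} (hξ : ξ ∈ W.gr V (2 * 1)) (a : ℕ) : ξ ^ a ∈ W.gr V (2 * a) := by
  induction a with
  | zero => rw [pow_zero]; exact W.one_mem V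
  | succ a ih =>
    rw [pow_succ]
    have := W.mul_mem ih hξ
    rwa [← mul_add] at this

lemma alt_mul {ξ : W.H V} {η : W.H Q} (hη : η ∈ W.gr Q (2 * 1)) :
    (W.map (fst V Q) ξ + W.map (snd V Q) η) * alt W V Q ξ η =
      (-1 : W.K) ^ Q.dim • W.map (fst V Q) (ξ ^ (Q.dim + 1)) := by
  have hc : Commute (-(W.map (fst V Q) ξ)) (W.map (snd V Q) η) := by
    rw [Commute, SemiconjBy, mul_neg, neg_mul, W.even_comm (W.map_mem (snd V Q) hη)]
  have h1 := hc.mul_geom_sum₂ (Q.dim + 1)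
  have h0 : η ^ (Q.dim + 1) = 0 := by
    have := pow_mem_gr hη (Q.dim + 1)
    rw [W.gr_eq_bot Q _ (by omega)] at this
    exact (Submodule.mem_bot _).1 this
  rw [← map_pow, h0, map_zero, sub_zero] at h1
  have e : W.map (fst V Q) ξ + W.map (snd V Q) η =
      -(-(W.map (fst V Q) ξ) - W.map (snd V Q) η) := by abel
  rw [alt, e, neg_mul, h1, neg_pow, ← map_pow, pow_succ (-1 : W.H (V.prod Q)), mul_neg_one,
    neg_mul, neg_neg]
  rcases Nat.even_or_odd Q.dim with h | h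
  · rw [h.neg_one_pow, h.neg_one_pow, one_mul, one_smul]
  · rw [h.neg_one_pow, h.neg_one_pow, neg_one_mul, neg_one_smul]

lemma push_fst_even {p : ℕ} {z : W.H Q} (hz : z ∈ W.gr Q (2 * p)) :
    W.push (fst V Q) (W.map (snd V Q) z) = W.tr Q z • (1 : W.H V) := by
  apply W.tr_ext
  intro y
  rw [W.tr_push, W.even_comm (W.map_mem (snd V Q) hz), W.tr_prod, smul_mul_assoc, one_mul,
    map_smul, smul_eq_mul, mul_comm]

lemma push_alt {ξ : W.H V} {η : W.H Q} (hη : η ∈ W.gr Q (2 * 1)) :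
    W.push (fst V Q) (alt W V Q ξ η) = W.tr Q (η ^ Q.dim) • (1 : W.H V) := by
  rw [alt, map_sum, Finset.sum_eq_single 0]
  · rw [pow_zero, one_mul, ← map_pow, push_fst_even (pow_mem_gr hη _)]
    rfl
  · intro a ha' ha
    rw [Finset.mem_range] at ha'
    have hη' : W.map (snd V Q) (η ^ (Q.dim + 1 - 1 - a)) ∈
        W.gr _ (2 * (Q.dim + 1 - 1 - a)) := W.map_mem _ (pow_mem_gr hη _)
    have e : (-(W.map (fst V Q) ξ)) ^ a = W.map (fst V Q) ((-ξ) ^ a) := by
      rw [map_pow, map_neg]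
    rw [← map_pow, e, ← W.even_comm hη', W.push_mul, push_fst_even (pow_mem_gr hη _)]
    rw [W.tr_eq_zero (pow_mem_gr hη _) (by omega), zero_smul, zero_mul]
  · intro h
    exact absurd (Finset.mem_range.2 (Nat.succ_pos _)) h

/-- The left inverse of the power of the Lefschetz operator. -/
noncomputable def lower (W : WeilCohomology.{u, v} ops) (V Q : 𝒱.Obj) (η : W.H Q)
    (T : Module.End W.K (W.H (V.prod Q))) : Module.End W.K (W.H V) :=
  ((-1 : W.K) ^ Q.dim * (W.tr Q (η ^ Q.dim))⁻¹) •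
    (W.push (fst V Q) ∘ₗ T ∘ₗ (W.map (fst V Q)).toLinearMap)

lemma lower_mem {η : W.H Q} {T : Module.End W.K (W.H (V.prod Q))}
    (hT : T ∈ KOp W (V.prod Q) (V.prod Q) (-1)) :
    lower W V Q η T ∈ KOp W V V (-((Q.dim : ℤ) + 1)) := by
  apply Submodule.smul_mem
  have h1 := KOp.comp hT (qop_pull (W := W) (fst V Q)).kop
  have h2 := KOp.comp (qop_push (W := W) (fst V Q)).kop h1
  exact KOp.cast h2 (by rw [dim_prod]; push_cast; ring)

theorem lower_apply {ξ : W.H V} {η : W.H Q} (hη : η ∈ W.gr Q (2 * 1))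
    (hξ : ξ ∈ W.gr V (2 * 1)) (htr : W.tr Q (η ^ Q.dim) ≠ 0) {i : ℕ}
    {T : Module.End W.K (W.H (V.prod Q))}
    (hTL : ∀ a ∈ W.gr (V.prod Q) (i + 2 * Q.dim),
      T ((W.map (fst V Q) ξ + W.map (snd V Q) η) * a) = a) {a : W.H V} (ha : a ∈ W.gr V i) :
    lower W V Q η T (ξ ^ (Q.dim + 1) * a) = a := by
  have halt : alt W V Q ξ η ∈ W.gr _ (2 * Q.dim) := by
    apply Submodule.sum_mem
    intro j hj
    rw [Finset.mem_range] at hj
    have h1 : -(W.map (fst V Q) ξ) ∈ W.gr (V.prod Q) (2 * 1) :=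
      Submodule.neg_mem _ (W.map_mem _ hξ)
    have h2 := W.mul_mem (pow_mem_gr h1 j) (pow_mem_gr (W.map_mem (snd V Q) hη)
      (Q.dim + 1 - 1 - j))
    rwa [← mul_add, show j + (Q.dim + 1 - 1 - j) = Q.dim by omega] at h2
  have h1 := hTL (alt W V Q ξ η * W.map (fst V Q) a) (by
    have := W.mul_mem halt (W.map_mem (fst V Q) ha)
    rwa [add_comm] at this)
  rw [← mul_assoc, alt_mul hη, smul_mul_assoc, ← map_mul, map_smul] at h1
  rw [lower, LinearMap.smul_apply, LinearMap.comp_apply, LinearMap.comp_apply,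
    AlgHom.toLinearMap_apply]
  have h2 : T (W.map (fst V Q) (ξ ^ (Q.dim + 1) * a)) =
      (-1 : W.K) ^ Q.dim • (alt W V Q ξ η * W.map (fst V Q) a) := by
    rw [← h1, smul_smul, ← mul_pow]
    simp
  rw [h2, map_smul, W.push_mul, push_alt hη, smul_mul_assoc, one_mul, smul_smul, smul_smul]
  have h3 : (-1 : W.K) ^ Q.dim * (-1) ^ Q.dim = 1 := by rw [← mul_pow]; simp
  rw [show (-1 : W.K) ^ Q.dim * (W.tr Q (η ^ Q.dim))⁻¹ * (-1) ^ Q.dim * W.tr Q (η ^ Q.dim) =
    ((-1 : W.K) ^ Q.dim * (-1) ^ Q.dim) * ((W.tr Q (η ^ Q.dim))⁻¹ * W.tr Q (η ^ Q.dim)) by ring,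
    h3, inv_mul_cancel₀ htr, one_mul, one_smul]

end Pool.Agent.N190.CB
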