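import Pool.Agent.N190.CB.Gen
import Pool.Agent.N190.CB.Sq
import Pool.Agent.N190.CB.Step2
import Pool.Agent.H447R3.SpC
import Pool.Agent.H447R3.WtB
import Pool.Agent.X310.Mom5
import Pool.Agent.TH125.Gal.Lef

/-!
# The sign conjecture and the conjecture B
-/

set_option autoImplicit false

open CategoryTheory AlgebraicGeometry

universe u v

namespace Pool.Agent.N190.CB

open Pool.Agent.H914 Pool.Agent.H447 Pool.Agent.W534 Pool.Agent.TH720.LB VarClass Obj
  WeilCohomology

variable {k : Type u} [Field k] {𝒱 : VarClass k} {ops : CycleOps 𝒱}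
  {W : WeilCohomology.{u, v} ops} {X Q : 𝒱.Obj}

lemma cl_sumDiv {Y : 𝒱.Obj} (D : X.Cycles) (E : Y.Cycles) :
    W.cl (X.prod Y) (sumDiv ops D E) =
      W.map (fst X Y) (W.cl X D) + W.map (snd X Y) (W.cl Y E) := by
  rw [sumDiv, map_add, W.cl_pull, W.cl_pull]

lemma isCyc_sumDiv' {Y : 𝒱.Obj} {D : X.Cycles} {E : Y.Cycles} (hD : X.IsCyc 1 D)
    (hE : Y.IsCyc 1 E) : (X.prod Y).IsCyc 1 (sumDiv ops D E) :=
  SmVar.IsCyc.add (ops.pull_mem _ hD) (ops.pull_mem _ hE)

lemma mulLeft_pow_apply {A : Type*} {K : Type*} [Field K] [Ring A] [Algebra K A] (x y : A) (m : ℕ) :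
    (LinearMap.mulLeft K x ^ m) y = x ^ m * y := by
  rw [LinearMap.pow_mulLeft, LinearMap.mulLeft_apply]

/-- The degree of a divisor with hard Lefschetz is not zero. -/
lemma degree_ne_zero {h : Q.Cycles} (hh : Q.IsCyc 1 h) (hL : HardLefschetz W Q h)
    (hne : (1 : W.H Q) ≠ 0) : W.tr Q (W.cl Q h ^ Q.dim) ≠ 0 := by
  intro h0
  have hξ : W.cl Q h ∈ W.gr Q (2 * 1) := W.cl_mem hh
  have h1 : W.cl Q h ^ Q.dim = 0 := by
    apply W.nondeg
    intro b
    refine gr_induction (W.isInternal Q) (p := fun b => W.tr Q (W.cl Q h ^ Q.dim * b) = 0)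
      ?_ ?_ b
    · intro i b hb
      by_cases hi : i = 0
      · subst hi
        rw [W.gr_zero, Submodule.mem_span_singleton] at hb
        obtain ⟨r, rfl⟩ := hb
        rw [mul_smul_comm, mul_one, map_smul, h0, smul_zero]
      · exact W.tr_eq_zero (W.mul_mem (pow_mem_gr hξ _) hb) (by omega)
    · intro a b ha hb
      rw [mul_add, map_add, ha, hb, add_zero]
  exact hne ((hL 0 (Nat.zero_le _)).1 1 (W.one_mem Q) (by
    rw [Nat.sub_zero, mulLeft_pow_apply, mul_one, h1]))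

/-- The functional `a ↦ tr a` is algebraic. -/
lemma inj_top : ∃ ν ∈ KOp W X X (-(X.dim : ℤ)), ∀ a ∈ W.gr X (X.dim + X.dim), ν a = 0 → a = 0 := by
  have hcyc : (X.prod X).IsCyc 0 (X.prod X).V.fundCycle := (X.prod X).V.fundCycle_mem
  refine ⟨_, KOp.gen (p := 0) (by simp) hcyc, fun a ha h0 => ?_⟩
  rw [W.cl_fund, corr_apply, one_mul, push_snd'] at h0
  rcases smul_eq_zero.1 h0 with h1 | h1
  · apply W.nondeg
    intro b
    refine gr_induction (W.isInternal X) (p := fun b => W.tr X (a * b) = 0) ?_ ?_ b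
    · intro i b hb
      by_cases hi : i = 0
      · subst hi
        rw [W.gr_zero, Submodule.mem_span_singleton] at hb
        obtain ⟨r, rfl⟩ := hb
        rw [mul_smul_comm, mul_one, map_smul, h1, smul_zero]
      · exact W.tr_eq_zero (W.mul_mem ha hb) (by omega)
    · intro b b' hb hb'
      rw [mul_add, map_add, hb, hb', add_zero]
  · rw [← mul_one a, h1, mul_zero]

section Sections

variable {k' : Type u} [Field k'] {𝒱' : VarClass k'} {ops' : CycleOps 𝒱'}
  {W' : WeilCohomology.{u, v} ops'}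

lemma one_ne_zero_of_section {E : (X.prod Q).Cycles} {Z : 𝒱'.Obj}
    (G : GenericSection W W' E Z) : (1 : W.H X) ≠ 0 ∧ (1 : W.H Q) ≠ 0 := by
  obtain ⟨v, -, hv, -⟩ := G.vanishing
  have h0 : (1 : W.H (X.prod Q)) ≠ 0 := fun h2 => hv (by
    rw [← one_mul v, ← map_one G.res, h2, map_zero, zero_mul])
  exact ⟨fun h1 => h0 (by rw [← map_one (W.map (fst X Q)), h1, map_zero]),
    fun h1 => h0 (by rw [← map_one (W.map (snd X Q)), h1, map_zero])⟩

/-- **One generic hyperplane section.** For `dim Q = 2 c - 2` the sign conjecture for the generic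
hyperplane section of `X × X × Q` gives an algebraic operator of degree `-c` which is injective on
`H^(dim X + c)(X)`. -/
theorem inj_of_section {D : X.Cycles} (hD : X.IsCyc 1 D) (hHL : HardLefschetz W X D)
    (hp : par (W.isInternal X) ∈ KOp W X X 0) {c : ℕ} (hc : 1 ≤ c) (hcn : c ≤ X.dim)
    {h : Q.Cycles} (hh : Q.IsCyc 1 h)
    (hQL : HardLefschetz W Q h) (hQ : Q.dim = 2 * c - 2) {Z : 𝒱'.Obj}
    (G : GenericSection W W' (V := (X.prod X).prod Q) (sumDiv ops (sumDiv ops D D) h) Z)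
    (hZ : SignStd W' Z) :
    ∃ ν ∈ KOp W X X (-c), ∀ a ∈ W.gr X (X.dim + c), ν a = 0 → a = 0 := by
  have hdim := G.dim
  simp only [dim_prod] at hdim
  have hE := isCyc_sumDiv' hD hD (ops := ops)
  obtain ⟨T, hT, hTL⟩ := exists_left_inverse G (isCyc_sumDiv' hE hh)
    ⟨X.dim + c - 2, by omega⟩ hZ
  have hξ : W.cl _ (sumDiv ops D D) ∈ W.gr (X.prod X) (2 * 1) := W.cl_mem hE
  have hη : W.cl Q h ∈ W.gr Q (2 * 1) := W.cl_mem hh
  rw [cl_sumDiv] at hTL
  have hlow := lower_mem (W := W) (V := X.prod X) (η := W.cl Q h) hT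
  refine inj_of_square' hD hHL hc hcn hp (KOp.cast hlow (by omega)) fun a ha => ?_
  have h1 := lower_apply (W := W) (V := X.prod X) (Q := Q) hη hξ
    (degree_ne_zero hh hQL (one_ne_zero_of_section G).2)
    (i := 2 * (X.dim - c)) (T := T) (fun a ha => by
      rw [hTL _ (by omega) a ha, if_pos ⟨X.dim - c + Q.dim, by omega⟩]) ha
  rw [mulLeft_pow_apply, ← cl_sumDiv, show 2 * c - 1 = Q.dim + 1 by omega]
  exact h1

/-- **The sign conjecture for `X` from the one for a generic hyperplane section.** -/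
theorem par_of_section {D : X.Cycles} (hD : X.IsCyc 1 D) (hHL : HardLefschetz W X D)
    {c : ℕ} (hc : 2 ≤ c) (_hcn : c ≤ X.dim)
    {h : Q.Cycles} (hh : Q.IsCyc 1 h)
    (hQL : HardLefschetz W Q h) (hQ : Q.dim = 2 * c - 2) {Z : 𝒱'.Obj}
    (G : GenericSection W W' (V := (X.prod X).prod Q) (sumDiv ops (sumDiv ops D D) h) Z)
    (hZ : SignStd W' Z) : par (W.isInternal X) ∈ KOp W X X 0 := by
  have hdim := G.dim
  simp only [dim_prod] at hdim
  have hE := isCyc_sumDiv' hD hD (ops := ops)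
  have hF := isCyc_sumDiv' hE hh (ops := ops)
  obtain ⟨T, hT, hTL⟩ := exists_left_inverse G hF ⟨X.dim + c - 2, by omega⟩ hZ
  obtain ⟨h1, hQ1⟩ := one_ne_zero_of_section G
  have hX1 : (1 : W.H X) ≠ 0 := fun h2 => h1 (by rw [← map_one (W.map (fst X X)), h2, map_zero])
  set p := fst (X.prod X) Q ≫ fst X X with hp
  set A := ops.pull (fst (X.prod X) Q) (ops.pull (snd X X) D) with hA
  set B := ops.pull (snd (X.prod X) Q) h with hB
  set r : W.K := W.tr X (W.cl X D ^ X.dim) * W.tr Q (W.cl Q h ^ Q.dim) with hr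
  have hr0 : r ≠ 0 := mul_ne_zero (degree_ne_zero hD hHL hX1) (degree_ne_zero hh hQL hQ1)
  have hAc : ((X.prod X).prod Q).IsCyc 1 A := ops.pull_mem _ (ops.pull_mem _ hD)
  have hBc : ((X.prod X).prod Q).IsCyc 1 B := ops.pull_mem _ hh
  -- the class whose push-forward is constant
  have hpush : ∀ x : W.H X, W.push p (W.cl _ A ^ X.dim * (W.cl _ B ^ Q.dim * W.map p x)) =
      r • x := by
    intro x
    have e1 : W.push p (W.cl _ A ^ X.dim * W.cl _ B ^ Q.dim) = r • (1 : W.H X) := by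
      apply W.tr_ext
      intro y
      have hBe : W.map (snd (X.prod X) Q) (W.cl Q h ^ Q.dim) ∈ W.gr _ (2 * Q.dim) :=
        W.map_mem _ (pow_mem_gr (W.cl_mem hh) _)
      have hDe : W.map (snd X X) (W.cl X D ^ X.dim) ∈ W.gr _ (2 * X.dim) :=
        W.map_mem _ (pow_mem_gr (W.cl_mem hD) _)
      have eA : W.cl _ A ^ X.dim =
          W.map (fst (X.prod X) Q) (W.map (snd X X) (W.cl X D ^ X.dim)) := by
        rw [hA, W.cl_pull, W.cl_pull, map_pow, map_pow]
      have eB : W.cl _ B ^ Q.dim = W.map (snd (X.prod X) Q) (W.cl Q h ^ Q.dim) := by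
        rw [hB, W.cl_pull, map_pow]
      rw [W.tr_push, eA, eB, hp, W.map_comp, mul_assoc, W.even_comm hBe, ← mul_assoc, ← map_mul,
        W.tr_prod, W.even_comm hDe, W.tr_prod, smul_mul_assoc, one_mul, map_smul, smul_eq_mul, hr]
      ring
    rw [← mul_assoc, W.push_mul, e1, smul_mul_assoc, one_mul]
  set F := W.cl _ (sumDiv ops (sumDiv ops D D) h) with hFdef
  set e : Module.End W.K (W.H X) := r⁻¹ • (W.push p ∘ₗ (LinearMap.mulLeft W.K (W.cl _ A) ^ X.dim) ∘ₗ
    (LinearMap.mulLeft W.K (W.cl _ B) ^ Q.dim) ∘ₗ T ∘ₗ LinearMap.mulLeft W.K F ∘ₗ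
      (W.map p).toLinearMap) with he
  have hek : e ∈ KOp W X X 0 := by
    apply Submodule.smul_mem
    have k1 := KOp.comp (kop_L hF) (qop_pull (W := W) p).kop
    have k2 := KOp.comp hT k1
    have k3 := KOp.comp (kop_pow (kop_L hBc) Q.dim) k2
    have k4 := KOp.comp (kop_pow (kop_L hAc) X.dim) k3
    have k5 := KOp.comp (qop_push (W := W) p).kop k4
    exact KOp.cast k5 (by simp only [dim_prod]; push_cast; ring)
  have hev : ∀ i, ∀ x ∈ W.gr X i, e x = if Even i then x else 0 := by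
    intro i x hx
    by_cases hi : i ≤ 2 * X.dim
    · have h3 : T (F * W.map p x) = if Even i then W.map p x else 0 :=
        hTL i (by omega) _ (W.map_mem p hx)
      rw [he, LinearMap.smul_apply, LinearMap.comp_apply, LinearMap.comp_apply,
        LinearMap.comp_apply, LinearMap.comp_apply, LinearMap.comp_apply,
        AlgHom.toLinearMap_apply, LinearMap.mulLeft_apply, h3, mulLeft_pow_apply,
        mulLeft_pow_apply]
      split_ifs
      · rw [hpush, smul_smul, inv_mul_cancel₀ hr0, one_smul]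
      · rw [mul_zero, mul_zero, map_zero, smul_zero]
    · rw [W.gr_eq_bot X i (by omega)] at hx
      rw [(Submodule.mem_bot _).1 hx, map_zero, ite_self]
  have hpar : par (W.isInternal X) = (2 : W.K) • e - LinearMap.id := by
    apply gr_ext (W.isInternal X)
    intro i x hx
    rw [par, scal_apply _ _ hx, LinearMap.sub_apply, LinearMap.smul_apply, hev i x hx,
      LinearMap.id_apply]
    split_ifs with hi
    · rw [hi.neg_one_pow, one_smul, two_smul, add_sub_cancel_right]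
    · rw [(Nat.not_even_iff_odd.1 hi).neg_one_pow, smul_zero, zero_sub, neg_one_smul]
  rw [hpar]
  exact Submodule.sub_mem _ (Submodule.smul_mem _ _ hek) (KOp.id X)

end Sections

/-- **The conjecture B for `X` is equivalent to the sign conjecture for `dim X` generic hyperplane
sections.** -/
theorem lefschetzB_iff_sign {D : X.Cycles} (hD : X.IsCyc 1 D) (hHL : HardLefschetz W X D)
    {Q : ℕ → 𝒱.Obj} {h : ∀ c, (Q c).Cycles} {T : ℕ → Theory.{u, v}} {Z : ∀ c, (T c).𝒱.Obj}
    (hS : SectionSystem W X D Q h T Z) :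
    LefschetzB W X D ↔ ∀ c ∈ Set.Icc 1 X.dim, SignStd (T c).W (Z c) := by
  constructor
  · intro hB c hc
    obtain ⟨G⟩ := hS.sections c hc
    have hdim := G.dim
    have hdQ := hS.dim c hc
    obtain ⟨hc1, hc2⟩ := hc
    simp only [dim_prod] at hdim
    have hc : c ∈ Set.Icc 1 X.dim := ⟨hc1, hc2⟩
    have h2 := TH125.Gal.hardLefschetz_prod hD hD hHL hHL
    have h3 := X310.Mom.lefschetzB_prod hD hD hHL hHL hB hB
    have hE := isCyc_sumDiv' hD hD (ops := ops)
    exact sign_of_lefschetzB G (isCyc_sumDiv' hE (hS.div c hc))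
      (TH125.Gal.hardLefschetz_prod hE (hS.div c hc) h2 (hS.hard c hc))
      (X310.Mom.lefschetzB_prod hE (hS.div c hc) h2 (hS.hard c hc) h3 (hS.lef c hc))
      ⟨X.dim + c - 2, by omega⟩
  · intro hZ
    apply lefschetzB_of_inj hD hHL
    intro c hc
    rcases Nat.eq_zero_or_pos c with rfl | hc0
    · exact ⟨LinearMap.id, KOp.cast (KOp.id X) (by simp), fun a _ ha => ha⟩
    rcases Nat.eq_or_lt_of_le hc with rfl | hlt
    · exact inj_top
    · have h2 : 2 ∈ Set.Icc 1 X.dim := ⟨by omega, by omega⟩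
      have hc' : c ∈ Set.Icc 1 X.dim := ⟨hc0, hc⟩
      obtain ⟨G2⟩ := hS.sections 2 h2
      obtain ⟨G⟩ := hS.sections c hc'
      exact inj_of_section hD hHL (par_of_section hD hHL le_rfl h2.2 (hS.div 2 h2) (hS.hard 2 h2)
        (hS.dim 2 h2) G2 (hZ 2 h2)) hc0 hc (hS.div c hc') (hS.hard c hc') (hS.dim c hc') G
        (hZ c hc')

/-- **The sign conjecture for all varieties is equivalent to the conjecture B for all varieties.** -/
theorem sign_tfae {𝒯 : Set Theory.{u, v}}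
    {Pol : ∀ T : Theory.{u, v}, ∀ X : T.𝒱.Obj, X.Cycles → Prop} (h𝒯 : HasSections 𝒯 Pol) :
    List.TFAE [
      ForAllPol 𝒯 Pol fun T X _ => SignStd T.W X,
      ForAllPol 𝒯 Pol fun T X _ => KunnethStd T.W X,
      ForAllPol 𝒯 Pol fun T X D => LefschetzB T.W X D] := by
  tfae_have 1 → 3 := by
    intro hS T hT X D hD
    have hDc := h𝒯.div T hT X D hD
    apply lefschetzB_of_inj hDc (h𝒯.hard T hT X D hD)
    intro c hcn
    rcases Nat.eq_zero_or_pos c with rfl | hc
    · exact ⟨LinearMap.id, KOp.cast (KOp.id X) (by simp), fun a _ ha => ha⟩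
    obtain ⟨Q, h, hQ, hh⟩ := h𝒯.exists_dim T hT (2 * c - 2)
    obtain ⟨T', hT', Z, E, hE, ⟨G⟩⟩ := h𝒯.sections T hT _ _
      (h𝒯.prod T hT _ _ _ _ (h𝒯.prod T hT _ _ _ _ hD hD) hh)
      (by simp only [dim_prod]; omega)
    exact inj_of_section hDc (h𝒯.hard T hT X D hD)
      (mem_KS_iff.1 (Submodule.subset_span (par_rop_of_sign (hS T hT X D hD)))) hc hcn
      (h𝒯.div T hT _ _ hh) (h𝒯.hard T hT _ _ hh) hQ G (hS T' hT' Z E hE)
  tfae_have 3 → 2 := by
    intro hB T hT X D hD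
    obtain ⟨Φ, hΦ, hLam⟩ := lefschetzB_iff_rop.1 (hB T hT X D hD)
    exact kunneth_of_rop fun i => rop_opAlg.proj_mem (T.W.isInternal X) W_hbd
      (rop_mulLeft (h𝒯.div T hT X D hD)) (h𝒯.hard T hT X D hD) hΦ hLam i
  tfae_have 2 → 1 := fun hK T hT X D hD => sign_of_kunneth fun i => kunneth_rop (hK T hT X D hD) i
  tfae_finish

end Pool.Agent.N190.CB
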