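import Pool.Agent.N190.CB.Tr

/-!
# From the square `X × X` to `X`

If `L ^ (2 c - 1)` has an algebraic left inverse on the cohomology of `X × X` in degree
`2 (dim X - c)`, then some algebraic correspondence of degree `-c` is injective on `H^(dim X + c)(X)`.
-/

set_option autoImplicit false

open CategoryTheory AlgebraicGeometry Finset

universe u v

namespace Pool.Agent.N190.CB

open Pool.Agent.H914 VarClass Obj WeilCohomology

section Perp

variable {K E : Type*} [Field K] [AddCommGroup E] [Module K E] [FiniteDimensional K E]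

/-- Orthogonality for a bilinear form on a finite-dimensional space. -/
lemma exists_perp (B : E →ₗ[K] E →ₗ[K] K) (J : Submodule K E) (x : E)
    (h : ∀ j ∈ J, ∀ r, (∀ b, B r b = 0) → x ≠ j + r) :
    ∃ q, (∀ j ∈ J, B j q = 0) ∧ B x q ≠ 0 := by
  have hx : x ∉ J ⊔ LinearMap.ker B := by
    intro hx
    obtain ⟨j, hj, r, hr, e⟩ := Submodule.mem_sup.1 hx
    exact h j hj r (fun b => by rw [LinearMap.mem_ker.1 hr, LinearMap.zero_apply]) e.symm
  obtain ⟨l, hl, hl'⟩ := Submodule.exists_dual_map_eq_bot_of_notMem (p := J ⊔ LinearMap.ker B) hx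
    inferInstance
  have hl0 : ∀ y ∈ J ⊔ LinearMap.ker B, l y = 0 := fun y hy => by
    have : l y ∈ Submodule.map l (J ⊔ LinearMap.ker B) := Submodule.mem_map_of_mem hy
    rw [hl'] at this
    exact (Submodule.mem_bot _).1 this
  have hr : l ∈ LinearMap.range B.dualMap := by
    rw [LinearMap.range_dualMap_eq_dualAnnihilator_ker, Submodule.mem_dualAnnihilator]
    exact fun y hy => hl0 y (Submodule.mem_sup_right hy)
  obtain ⟨η, hη⟩ := hr
  obtain ⟨q, rfl⟩ := (Module.evalEquiv K E).surjective η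
  have key : ∀ y, l y = B y q := fun y => by rw [← hη]; rfl
  exact ⟨q, fun j hj => by rw [← key]; exact hl0 j (Submodule.mem_sup_left hj),
    by rw [← key]; exact hl⟩

end Perp

variable {k : Type u} [Field k] {𝒱 : VarClass k} {ops : CycleOps 𝒱}
  {W : WeilCohomology.{u, v} ops} {X Y Z : 𝒱.Obj}

/-- every algebraic operator is induced by a class -/
lemma exists_corr {d : ℤ} {φ : W.H X →ₗ[W.K] W.H Y} (hφ : φ ∈ KOp W X Y d) :
    ∃ c, W.corr c = φ := by
  obtain ⟨c, -, hc⟩ := mem_KOp_iff.1 hφ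
  exact ⟨c, hc⟩

/-- The partial trace over the second factor, for operators. -/
lemma ptrace_left {d e : ℤ} {A : Module.End W.K (W.H (X.prod Z))}
    (hA : A ∈ KOp W (X.prod Z) (X.prod Z) d) {ψ : Module.End W.K (W.H Z)} (hψ : ψ ∈ KOp W Z Z e) :
    ∃ T ∈ KOp W X X (d + e), ∀ {r : ℤ} {φ : Module.End W.K (W.H X)}, φ ∈ KOp W X X r →
      str W (X.prod Z) (A * extOp W φ ψ) = str W X (T * φ) := by
  obtain ⟨T, hT, h1⟩ := exists_ptrace hA hψ
  refine ⟨T, hT, fun hφ => ?_⟩
  obtain ⟨f, rfl⟩ := exists_corr hφ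
  exact h1 f

/-- The partial trace over the first factor, for operators. -/
lemma ptrace_right {d e : ℤ} {A : Module.End W.K (W.H (X.prod Z))}
    (hA : A ∈ KOp W (X.prod Z) (X.prod Z) d) {φ : Module.End W.K (W.H X)} (hφ : φ ∈ KOp W X X e) :
    ∃ T ∈ KOp W Z Z (d + e), ∀ {r : ℤ} {ψ : Module.End W.K (W.H Z)}, ψ ∈ KOp W Z Z r →
      str W (X.prod Z) (A * extOp W φ ψ) = str W Z (T * ψ) := by
  obtain ⟨T, hT, h1⟩ := exists_ptrace' hA hφ
  refine ⟨T, hT, fun {r ψ} hψ => ?_⟩
  induction hψ using Submodule.span_induction with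
  | mem x hx =>
    obtain ⟨p, hp, z, hz, rfl⟩ := hx
    exact h1 (W.cl_mem hz)
  | zero => rw [extOp_zero_right, mul_zero, mul_zero, map_zero, map_zero]
  | add x y _ _ hx hy => rw [extOp_add_right, mul_add, mul_add, map_add, map_add, hx, hy]
  | smul a x _ hx => rw [extOp_smul_right, mul_smul_comm, mul_smul_comm, map_smul, map_smul, hx]

lemma str_ext_mul {d e : ℤ} {φ : Module.End W.K (W.H X)} (hφ : φ ∈ KOp W X X d)
    {ψ : Module.End W.K (W.H Z)} (hψ : ψ ∈ KOp W Z Z e) :
    str W (X.prod Z) (extOp W φ ψ) = str W X φ * str W Z ψ := by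
  obtain ⟨f, rfl⟩ := exists_corr hφ
  induction hψ using Submodule.span_induction with
  | mem x hx =>
    obtain ⟨p, hp, z, hz, rfl⟩ := hx
    exact str_extOp f (W.cl_mem hz)
  | zero => rw [extOp_zero_right, map_zero, map_zero, mul_zero]
  | add x y _ _ hx hy => rw [extOp_add_right, map_add, map_add, hx, hy, mul_add]
  | smul a x _ hx => rw [extOp_smul_right, map_smul, map_smul, hx, smul_eq_mul, smul_eq_mul]; ring

lemma kop_mul {d e : ℤ} {φ ψ : Module.End W.K (W.H X)} (hφ : φ ∈ KOp W X X d)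
    (hψ : ψ ∈ KOp W X X e) : φ * ψ ∈ KOp W X X (d + e) := by
  have := KOp.comp hφ hψ
  rwa [add_comm] at this

lemma kop_pow {d : ℤ} {φ : Module.End W.K (W.H X)} (hφ : φ ∈ KOp W X X d) (m : ℕ) :
    φ ^ m ∈ KOp W X X (m * d) := by
  induction m with
  | zero => exact KOp.cast (KOp.id X) (by simp)
  | succ m ih =>
    rw [pow_succ]
    have := kop_mul ih hφ
    rwa [show ((m : ℤ) * d + d) = ((m + 1 : ℕ) : ℤ) * d by push_cast; ring] at this

lemma extOp_pow (φ : Module.End W.K (W.H X)) (ψ : Module.End W.K (W.H Z)) (m : ℕ) :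
    extOp W φ ψ ^ m = extOp W (φ ^ m) (ψ ^ m) := by
  induction m with
  | zero => rw [pow_zero, pow_zero, pow_zero, extOp_one]
  | succ m ih => rw [pow_succ, ih, extOp_mul, ← pow_succ, ← pow_succ]

/-- The powers of the Lefschetz operator of a product. -/
lemma sum_pow (L : Module.End W.K (W.H X)) (M : Module.End W.K (W.H Z)) (m : ℕ) :
    (extOp W L 1 + extOp W 1 M) ^ m =
      ∑ a ∈ range (m + 1), (m.choose a : W.K) • extOp W (L ^ a) (M ^ (m - a)) := by
  have hc : Commute (extOp W L (1 : Module.End W.K (W.H Z))) (extOp W 1 M) := by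
    rw [Commute, SemiconjBy, extOp_mul, extOp_mul, one_mul, mul_one, one_mul, mul_one]
  rw [hc.add_pow]
  refine Finset.sum_congr rfl fun a _ => ?_
  rw [extOp_pow, extOp_pow, extOp_mul, one_pow, one_pow, one_mul, mul_one, ← Nat.cast_comm,
    ← nsmul_eq_mul, Nat.cast_smul_eq_nsmul]

/-- The supertrace is cyclic for an even projector. -/
lemma str_proj_mul (i : ℕ) (a : Module.End W.K (W.H X)) :
    str W X (proj (W.isInternal X) i * a) = (-1 : W.K) ^ i *
      LinearMap.trace W.K (W.H X) (proj (W.isInternal X) i * a) := by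
  rw [str_apply, ← mul_assoc, par_mul_proj, smul_mul_assoc, map_smul, smul_eq_mul]

lemma mulLeft_sum (ξ : W.H X) {η : W.H Z} (hη : η ∈ W.gr Z (2 * 1)) :
    LinearMap.mulLeft W.K (W.map (fst X Z) ξ + W.map (snd X Z) η) =
      extOp W (LinearMap.mulLeft W.K ξ) 1 + extOp W 1 (LinearMap.mulLeft W.K η) := by
  apply ext_kunneth_lin
  intro a b
  rw [LinearMap.add_apply, extOp_tmul, extOp_tmul, LinearMap.mulLeft_apply,
    LinearMap.mulLeft_apply, LinearMap.mulLeft_apply, Module.End.one_apply, Module.End.one_apply,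
    add_mul, map_mul, map_mul, mul_assoc, ← mul_assoc (W.map (snd X Z) η),
    W.even_comm (W.map_mem _ hη), mul_assoc]

lemma par_comm_proj (i : ℕ) :
    par (W.isInternal X) * proj (W.isInternal X) i =
      proj (W.isInternal X) i * par (W.isInternal X) := by
  rw [par, proj, scal_mul, scal_mul]
  congr 1
  funext j
  ring

/-- **The contradiction on the square.** -/
lemma str_eq_zero {ξ : W.H X} (hξ : ξ ∈ W.gr X (2 * 1))
    (hLk : LinearMap.mulLeft W.K ξ ∈ KOp W X X 1) {c i : ℕ}
    (hc : 1 ≤ c) (hπ : proj (W.isInternal X) i ∈ KOp W X X 0)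
    {T : Module.End W.K (W.H (X.prod X))}
    (hT : T ∈ KOp W (X.prod X) (X.prod X) (-(2 * (c : ℤ) - 1)))
    (hTL : ∀ a ∈ W.gr (X.prod X) (2 * i),
      T ((LinearMap.mulLeft W.K (W.map (fst X X) ξ + W.map (snd X X) ξ) ^
        (2 * c - 1)) a) = a)
    {q : Module.End W.K (W.H X)} (hq : q ∈ KOp W X X 0)
    (hJ : ∀ u ∈ KOp W X X (-c), str W X (proj (W.isInternal X) i *
      (u * LinearMap.mulLeft W.K ξ ^ c) *
        (proj (W.isInternal X) i * q * proj (W.isInternal X) i)) = 0) :
    str W X (proj (W.isInternal X) i * q * proj (W.isInternal X) i) = 0 := by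
  set π := proj (W.isInternal X) i with hπ'
  set L := LinearMap.mulLeft W.K ξ with hL
  have hππ : π * π = π := proj_mul_proj _ _
  have hLp : ∀ a : ℕ, L ^ a ∈ KOp W X X a := fun a => KOp.cast (kop_pow hLk a) (by ring)
  set q' := π * q * π with hq'
  have hqk : q' ∈ KOp W X X 0 := KOp.cast (kop_mul (kop_mul hπ hq) hπ) (by ring)
  have hqπ : q' * π = q' := by rw [hq', mul_assoc, hππ]
  have hqm : ∀ a, q' a ∈ W.gr X i := fun a => proj_mem _ _ _
  have hJ' : ∀ u ∈ KOp W X X (-c), str W X (u * L ^ c * q') = 0 := by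
    intro u hu
    have h1 := hJ u hu
    rw [str_apply] at h1 ⊢
    have e : par (W.isInternal X) * (u * L ^ c * q') =
        (par (W.isInternal X) * (u * L ^ c * q')) * π := by
      rw [mul_assoc (par (W.isInternal X)), mul_assoc (u * L ^ c), hqπ]
    rw [e, LinearMap.trace_mul_comm, ← mul_assoc, hπ', ← par_comm_proj, mul_assoc, ← hπ']
    rwa [mul_assoc π] at h1
  have hsq : str W (X.prod X) (extOp W q' q') = 0 := by
    have e1 : extOp W q' q' = T * ((LinearMap.mulLeft W.K
        (W.map (fst X X) ξ + W.map (snd X X) ξ) ^ (2 * c - 1)) * extOp W q' q') := by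
      apply ext_kunneth_lin
      intro a b
      rw [Module.End.mul_apply, Module.End.mul_apply, extOp_tmul, hTL]
      have := W.mul_mem (W.map_mem (fst X X) (hqm a)) (W.map_mem (snd X X) (hqm b))
      rwa [← two_mul] at this
    rw [e1, mulLeft_sum ξ hξ, ← hL, sum_pow, Finset.sum_mul, Finset.mul_sum, map_sum]
    apply Finset.sum_eq_zero
    intro a ha
    rw [Finset.mem_range] at ha
    rw [smul_mul_assoc, mul_smul_comm, map_smul, extOp_mul]
    suffices h : str W (X.prod X) (T * extOp W (L ^ a * q') (L ^ (2 * c - 1 - a) * q')) = 0 by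
      rw [h, smul_zero]
    rcases le_or_gt c a with h | h
    · obtain ⟨T', hT', h1⟩ := ptrace_left hT (kop_mul (hLp (2 * c - 1 - a)) hqk)
      rw [h1 (kop_mul (hLp a) hqk)]
      have e2 : T' * (L ^ a * q') = T' * L ^ (a - c) * L ^ c * q' := by
        rw [mul_assoc T', ← pow_add, Nat.sub_add_cancel h, mul_assoc]
      rw [e2]
      exact hJ' _ (KOp.cast (kop_mul hT' (hLp (a - c))) (by omega))
    · obtain ⟨T', hT', h1⟩ := ptrace_right hT (kop_mul (hLp a) hqk)
      rw [h1 (kop_mul (hLp (2 * c - 1 - a)) hqk)]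
      have e2 : T' * (L ^ (2 * c - 1 - a) * q') = T' * L ^ (2 * c - 1 - a - c) * L ^ c * q' := by
        rw [mul_assoc T', ← pow_add, Nat.sub_add_cancel (by omega), mul_assoc]
      rw [e2]
      exact hJ' _ (KOp.cast (kop_mul hT' (hLp (2 * c - 1 - a - c))) (by omega))
  rw [str_ext_mul hqk hqk] at hsq
  exact mul_self_eq_zero.1 hsq

/-- Numerically trivial operators are nilpotent. -/
lemma nilp {i : ℕ} (hπ : proj (W.isInternal X) i ∈ KOp W X X 0)
    {r : Module.End W.K (W.H X)} (hr : r ∈ KOp W X X 0)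
    (h : ∀ b ∈ KOp W X X 0, str W X (proj (W.isInternal X) i * r *
      (proj (W.isInternal X) i * b * proj (W.isInternal X) i)) = 0) :
    IsNilpotent (proj (W.isInternal X) i * r * proj (W.isInternal X) i) := by
  set π := proj (W.isInternal X) i with hπ'
  have hππ : π * π = π := proj_mul_proj _ _
  set r' := π * r * π with hr'
  have hrk : r' ∈ KOp W X X 0 := KOp.cast (kop_mul (kop_mul hπ hr) hπ) (by ring)
  have hc : Commute π r' := by
    rw [Commute, SemiconjBy, hr', mul_assoc (π * r), hππ, ← mul_assoc, ← mul_assoc, hππ]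
  apply isNilpotent_of_trace_pow
  intro m
  have e1 : r' ^ (m + 1) = π * (r * (π * r' ^ m * π)) := by
    rw [(hc.pow_right m).eq, mul_assoc (r' ^ m), hππ, ← (hc.pow_right m).eq, pow_succ', hr']
    simp only [mul_assoc]
  have h1 := h (r' ^ m) (KOp.cast (kop_pow hrk m) (by ring))
  rw [mul_assoc π r, str_proj_mul, ← hπ', ← e1] at h1
  exact (mul_eq_zero.1 h1).resolve_left (pow_ne_zero _ (by norm_num))

/-- **From the square to the variety.** -/
theorem inj_of_square {D : X.Cycles} (hD : X.IsCyc 1 D) (hHL : HardLefschetz W X D) {c : ℕ}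
    (hc : 1 ≤ c) (hcn : c ≤ X.dim) (hπ : proj (W.isInternal X) (X.dim - c) ∈ KOp W X X 0)
    {T : Module.End W.K (W.H (X.prod X))}
    (hT : T ∈ KOp W (X.prod X) (X.prod X) (-(2 * (c : ℤ) - 1)))
    (hTL : ∀ a ∈ W.gr (X.prod X) (2 * (X.dim - c)),
      T ((LinearMap.mulLeft W.K (W.map (fst X X) (W.cl X D) + W.map (snd X X) (W.cl X D)) ^
        (2 * c - 1)) a) = a) :
    ∃ ν ∈ KOp W X X (-c), ∀ a ∈ W.gr X (X.dim + c), ν a = 0 → a = 0 := by
  have hξ : W.cl X D ∈ W.gr X (2 * 1) := W.cl_mem hD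
  have hLk : LinearMap.mulLeft W.K (W.cl X D) ∈ KOp W X X 1 :=
    mem_KS_iff.1 (Submodule.subset_span (rop_mulLeft hD))
  have key := fun {q} hq hJ => str_eq_zero hξ hLk hc hπ hT hTL (q := q) hq hJ
  have hnil := fun {r} hr h => nilp hπ (r := r) hr h
  set π := proj (W.isInternal X) (X.dim - c) with hπ'
  set L := LinearMap.mulLeft W.K (W.cl X D) with hL
  have hLp : ∀ a : ℕ, L ^ a ∈ KOp W X X a := fun a => KOp.cast (kop_pow hLk a) (by ring)
  by_contra hno
  let B : KOp W X X 0 →ₗ[W.K] KOp W X X 0 →ₗ[W.K] W.K :=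
    LinearMap.mk₂ W.K (fun a b => str W X (π * (a : Module.End W.K (W.H X)) *
        (π * (b : Module.End W.K (W.H X)) * π)))
      (fun a a' b => by rw [Submodule.coe_add, mul_add, add_mul, map_add])
      (fun r a b => by rw [Submodule.coe_smul, mul_smul_comm, smul_mul_assoc, map_smul])
      (fun a b b' => by rw [Submodule.coe_add, mul_add, add_mul, mul_add, map_add])
      (fun r a b => by
        rw [Submodule.coe_smul, mul_smul_comm, smul_mul_assoc, mul_smul_comm, map_smul])
  let J : Submodule W.K (KOp W X X 0) :=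
    ((KOp W X X (-c)).map (LinearMap.mulRight W.K (L ^ c))).comap (KOp W X X 0).subtype
  obtain ⟨q, hq1, hq2⟩ := exists_perp B J (⟨1, KOp.id X⟩ : KOp W X X 0) (by
    rintro ⟨j, hj⟩ hjJ ⟨r, hr⟩ hrB e
    obtain ⟨u, hu, hu2⟩ := hjJ
    have hu2' : u * L ^ c = j := hu2
    have hr0 : ∀ b ∈ KOp W X X 0, str W X (π * r * (π * b * π)) = 0 :=
      fun b hb => hrB ⟨b, hb⟩
    obtain ⟨m, hm⟩ := hnil hr hr0
    have e' : (1 : Module.End W.K (W.H X)) = u * L ^ c + r := by
      rw [hu2']
      exact congrArg Subtype.val e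
    apply hno
    refine ⟨u, hu, fun a ha h0 => ?_⟩
    obtain ⟨b, hb, rfl⟩ := (hHL (X.dim - c) (by omega)).2 a
      (by rwa [show 2 * X.dim - (X.dim - c) = X.dim + c by omega])
    rw [show X.dim - (X.dim - c) = c by omega] at h0 ⊢
    have hrb : r b = b := by
      have h1 := congrArg (fun F => F b) e'
      simp only [Module.End.one_apply, LinearMap.add_apply, Module.End.mul_apply] at h1
      rw [show u ((L ^ c) b) = 0 from h0, zero_add] at h1
      exact h1.symm
    have hpb : π b = b := proj_same _ hb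
    have hfix : ∀ s : ℕ, ((π * r * π) ^ s) b = b := by
      intro s
      induction s with
      | zero => rfl
      | succ s ih =>
        rw [pow_succ, Module.End.mul_apply, Module.End.mul_apply, Module.End.mul_apply, hpb, hrb,
          hpb, ih]
    have := hfix m
    rw [hm, LinearMap.zero_apply] at this
    rw [← this, map_zero])
  apply hq2
  have h1 := key q.2 (fun u hu => hq1 ⟨u * L ^ c, KOp.cast (kop_mul hu (hLp c)) (by ring)⟩
    ⟨u, hu, rfl⟩)
  change str W X (π * 1 * (π * (q : Module.End W.K (W.H X)) * π)) = 0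
  rw [mul_one, ← mul_assoc, ← mul_assoc, proj_mul_proj]
  exact h1

end Pool.Agent.N190.CB
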