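import Pool.Agent.N190.CB.Defs
import Pool.Agent.N190.CB.Step3
import Pool.Agent.H447R3.SpC
import Pool.Agent.H447R3.WtB
import Pool.Agent.H447R3.KuB

/-!
# The generic hyperplane section and the sign conjecture

If the generic hyperplane section `Z` of `V` has odd dimension and satisfies the sign conjecture, then
the Lefschetz operator of `V` has an algebraic left inverse in the even degrees `< dim Z`.
-/

set_option autoImplicit false

open CategoryTheory AlgebraicGeometry

universe u v

namespace Pool.Agent.N190.CB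

open Pool.Agent.H914 Pool.Agent.H447 VarClass Obj WeilCohomology

variable {k : Type u} [Field k] {𝒱 : VarClass k} {ops : CycleOps 𝒱}
  {k' : Type u} [Field k'] {𝒱' : VarClass k'} {ops' : CycleOps 𝒱'}
  {W : WeilCohomology.{u, v} ops} {W' : WeilCohomology.{u, v} ops'} {V : 𝒱.Obj} {D : V.Cycles}
  {Z : 𝒱'.Obj}

/-- The value of a decomposable correspondence. -/
lemma corr_tmul {X Y : 𝒱.Obj} {j l : ℕ} (a : W.H X) {b : W.H Y} (hb : b ∈ W.gr Y j) {x : W.H X}
    (hx : x ∈ W.gr X l) : W.corr (W.map (fst X Y) a * W.map (snd X Y) b) x =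
      ((-1 : W.K) ^ (j * l) * W.tr X (a * x)) • b := by
  rw [corr_apply, mul_assoc, W.comm (W.map_mem (snd X Y) hb) (W.map_mem (fst X Y) hx),
    mul_smul_comm, ← mul_assoc, ← map_mul, map_smul, push_snd, smul_smul]

variable (G : GenericSection W W' D Z)
include G

lemma corr_res (hD : V.IsCyc 1 D) (y : W.H (V.prod V)) (x : W.H V) :
    W'.corr (G.res₂ y) (G.res x) = G.res (W.corr y (W.cl V D * x)) := by
  have hξ : W.cl V D ∈ W.gr V (2 * 1) := W.cl_mem hD
  refine gr_induction (W.isInternal V) (p := fun x =>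
    W'.corr (G.res₂ y) (G.res x) = G.res (W.corr y (W.cl V D * x))) ?_ ?_ x
  swap
  · intro a b ha hb
    rw [map_add, map_add, ha, hb, mul_add, map_add, map_add]
  intro l x hx
  refine W.kunneth_induction (p := fun y =>
    W'.corr (G.res₂ y) (G.res x) = G.res (W.corr y (W.cl V D * x))) ?_ ?_ y
  · intro a b ha hb
    rw [map_add, corr_add, corr_add, LinearMap.add_apply, LinearMap.add_apply, ha, hb, map_add]
  intro i j a _ b hb
  rw [map_mul G.res₂, G.res_fst, G.res_snd, corr_tmul _ (G.res_mem j b hb) (G.res_mem l x hx),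
    corr_tmul _ hb (W.mul_mem hξ hx), G.res_smul, ← map_mul G.res, G.tr_res, map_mul G.σ]
  congr 1
  rw [map_pow, map_neg, map_one, ← mul_assoc (W.cl V D), W.even_comm hξ, mul_assoc a]
  congr 1
  rw [mul_add, pow_add, ← mul_assoc, mul_comm j 2, mul_one, pow_mul (-1 : W'.K) 2 j]
  simp

lemma corr_vanishing {v : W'.H Z} {n : ℕ} (hv : v ∈ W'.gr Z n)
    (h0 : ∀ x, W'.tr Z (G.res x * v) = 0) (y : W.H (V.prod V)) : W'.corr (G.res₂ y) v = 0 := by
  refine W.kunneth_induction (p := fun y => W'.corr (G.res₂ y) v = 0) ?_ ?_ y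
  · intro a b ha hb
    rw [map_add, corr_add, LinearMap.add_apply, ha, hb, add_zero]
  intro i j a _ b hb
  rw [map_mul G.res₂, G.res_fst, G.res_snd, corr_tmul _ (G.res_mem j b hb) hv, h0, mul_zero,
    zero_smul]

/-- **The sign conjecture for the generic hyperplane section.** -/
theorem exists_left_inverse (hD : V.IsCyc 1 D) (hZ : Odd Z.dim) (hS : SignStd W' Z) :
    ∃ T ∈ KOp W V V (-1), ∀ i < Z.dim, ∀ x ∈ W.gr V i,
      T (W.cl V D * x) = if Even i then x else 0 := by
  obtain ⟨P, hP, hPe⟩ := hS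
  obtain ⟨y, hy, c, hc⟩ := G.cycles P hP
  have hdiag : ∀ b : W'.H Z, W'.corr (W'.push (diag Z) 1) b = b := fun b => by
    rw [corr_diag, one_mul]
  have hval : ∀ b : W'.H Z, W'.corr (W'.cl _ P) b = W'.corr (G.res₂ (W.cl _ y)) b +
      (c : W'.K) • b := fun b => by
    rw [hc, corr_add, corr_smul, LinearMap.add_apply, LinearMap.smul_apply, hdiag]
  have hc0 : (c : W'.K) = 0 := by
    obtain ⟨v, hv, hv0, hvr⟩ := G.vanishing
    have h1 := hval v
    rw [hPe _ v hv, if_neg (Nat.not_even_iff_odd.2 hZ), corr_vanishing G hv hvr, zero_add] at h1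
    exact (smul_eq_zero.1 h1.symm).resolve_right hv0
  have hyk : W.corr (W.cl _ y) ∈ KOp W V V (-1) :=
    KOp.gen (p := Z.dim) (by rw [G.dim]; push_cast; ring) hy
  refine ⟨_, hyk, fun i hi x hx => ?_⟩
  have h1 := hval (G.res x)
  rw [hPe _ _ (G.res_mem i x hx), hc0, zero_smul, add_zero, corr_res G hD] at h1
  rw [← sub_eq_zero]
  apply G.weak i hi
  · apply Submodule.sub_mem
    · have hξ : W.cl V D ∈ W.gr V (2 * 1) := W.cl_mem hD
      have h2 := KOp.isHom hyk _ _ (by rw [grZ_natCast]; exact W.mul_mem hξ hx)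
      rwa [show ((2 * 1 + i : ℕ) : ℤ) + 2 * (-1) = (i : ℤ) by push_cast; ring, grZ_natCast] at h2
    · split_ifs
      · exact hx
      · exact Submodule.zero_mem _
  · rw [map_sub, ← h1]
    split_ifs
    · rw [sub_self]
    · rw [map_zero, sub_zero]

/-- Classes on `V` killed by `D` restrict to zero. -/
lemma res_eq_zero {w : W.H V} (hw : W.cl V D * w = 0) : G.res w = 0 := by
  apply W'.nondeg
  intro b
  obtain ⟨r, hr, v, -, hv, rfl⟩ := G.span b
  rw [mul_add, map_add, hv, add_zero]
  induction hr using Submodule.span_induction with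
  | mem x hx =>
    obtain ⟨x, rfl⟩ := hx
    rw [← map_mul, G.tr_res, ← mul_assoc, hw, zero_mul, map_zero, map_zero]
  | zero => rw [mul_zero, map_zero]
  | add x y _ _ hx hy => rw [mul_add, map_add, hx, hy, add_zero]
  | smul c x _ hx => rw [mul_smul_comm, map_smul, hx, smul_zero]

omit G in
lemma L_lam_L {K' : Type*} [Field K'] {U : Type*} [AddCommGroup U] [Module K' U]
    {gr : ℕ → Submodule K' U} {n : ℕ} {L Lam : Module.End K' U} (h : DirectSum.IsInternal gr)
    (hL : IsHom gr 2 L) (hbd : ∀ i, 2 * n + 1 ≤ i → gr i = ⊥) (hHL : HardLef gr n L)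
    (hLam : IsLam gr n L Lam) (a : U) : L (Lam (L a)) = L a := by
  refine lef_induction' h hL hbd hHL (p := fun a => L (Lam (L a)) = L a) ?_ ?_ a
  · intro a b ha hb
    rw [map_add, map_add, map_add, ha, hb]
  · intro i hi a ha hp j
    rcases Nat.lt_or_ge j (n - i) with hj | hj
    · have h1 := (hLam i hi a ha hp).2 j hj
      rw [pow_succ', Module.End.mul_apply] at h1
      rw [h1]
    · have h1 := L_pow_gt hp (j := j + 1) (by omega)
      rw [pow_succ', Module.End.mul_apply] at h1
      rw [h1, map_zero, map_zero]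

/-- **The conjecture B for `V` gives the sign conjecture for the generic hyperplane section.** -/
theorem sign_of_lefschetzB (hD : V.IsCyc 1 D) (hHL : HardLefschetz W V D)
    (hB : LefschetzB W V D) (hZ : Odd Z.dim) : SignStd W' Z := by
  obtain ⟨Φ, hΦ, hLam⟩ := lefschetzB_iff_rop.1 hB
  have hP : ∀ i, ROp W V 0 (proj (W.isInternal V) i) := fun i =>
    rop_opAlg.proj_mem (W.isInternal V) W_hbd (rop_mulLeft hD) hHL hΦ hLam i
  obtain ⟨P, hP', hPe⟩ := sign_of_kunneth hP
  have hPR : ROp W V 0 (W.corr (W.cl _ P)) := rop_corr (by simp) hP'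
  obtain ⟨y, hy, hyΦ⟩ := exists_of_rop (p := Z.dim) (by rw [G.dim]; push_cast; ring)
    (rop_opAlg.mul hPR hΦ)
  obtain ⟨z, hz, hzy⟩ := G.restrict y hy
  have hLh : IsHom (W.gr V) 2 (LinearMap.mulLeft W.K (W.cl V D)) := isHom_mulLeft W hD
  have hΦm : ∀ {i : ℕ} {x : W.H V}, x ∈ W.gr V i → Φ (W.cl V D * x) ∈ W.gr V i := by
    intro i x hx
    have hξ : W.cl V D ∈ W.gr V (2 * 1) := W.cl_mem hD
    have h2 := rop_opAlg.hom hΦ _ _ (by rw [grZ_natCast]; exact W.mul_mem hξ hx)
    rwa [show ((2 * 1 + i : ℕ) : ℤ) + 2 * (-1) = (i : ℤ) by push_cast; ring, grZ_natCast] at h2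
  have key : W'.corr (W'.cl _ z) = evenProj (W'.isInternal Z) := by
    have h1 : ∀ x : W.H V, W'.corr (W'.cl _ z) (G.res x) =
        evenProj (W'.isInternal Z) (G.res x) := by
      intro x
      refine gr_induction (W.isInternal V) (p := fun x => W'.corr (W'.cl _ z) (G.res x) =
        evenProj (W'.isInternal Z) (G.res x)) ?_ ?_ x
      · intro i x hx
        rw [hzy, corr_res G hD, hyΦ, Module.End.mul_apply, hPe i _ (hΦm hx), evenProj,
          scal_apply _ _ (G.res_mem i x hx)]
        split_ifs with hev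
        · rw [one_smul, ← sub_eq_zero, ← map_sub]
          apply res_eq_zero G
          rw [mul_sub, sub_eq_zero]
          exact L_lam_L (W.isInternal V) hLh W_hbd hHL hLam x
        · rw [zero_smul, map_zero]
      · intro a b ha hb
        rw [map_add, map_add, map_add, ha, hb]
    apply LinearMap.ext
    intro b
    obtain ⟨r, hr, v, hvm, hv, rfl⟩ := G.span b
    have h2 : W'.corr (W'.cl _ z) r = evenProj (W'.isInternal Z) r := by
      induction hr using Submodule.span_induction with
      | mem x hx =>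
        obtain ⟨x, rfl⟩ := hx
        exact h1 x
      | zero => rw [map_zero, map_zero]
      | add x y _ _ hx hy => rw [map_add, map_add, hx, hy]
      | smul c x _ hx => rw [map_smul, map_smul, hx]
    rw [map_add, map_add, h2, hzy, corr_vanishing G hvm hv, evenProj, scal_apply _ _ hvm,
      if_neg (Nat.not_even_iff_odd.2 hZ), zero_smul]
  refine ⟨z, hz, fun j a ha => ?_⟩
  rw [key, evenProj, scal_apply _ _ ha]
  split_ifs
  · rw [one_smul]
  · rw [zero_smul]

end Pool.Agent.N190.CB
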