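import Pool.Agent.H914R2.ExtOp
import Pool.Agent.H914R2.GBasic

/-!
# The partial trace of a correspondence on a product is algebraic
-/

set_option autoImplicit false

open CategoryTheory AlgebraicGeometry

universe u v

namespace Pool.Agent.N190.CB

open Pool.Agent.H914 VarClass Obj WeilCohomology

variable {k : Type u} [Field k] {𝒱 : VarClass k} {ops : CycleOps 𝒱}
  {W : WeilCohomology.{u, v} ops} {X Y Z : 𝒱.Obj}

lemma prod_ext {S : 𝒱.Obj} {f g : S ⟶ X.prod Y} (h1 : f ≫ fst X Y = g ≫ fst X Y)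
    (h2 : f ≫ snd X Y = g ≫ snd X Y) : f = g :=
  SmVar.Hom.ext (Limits.pullback.hom_ext (congrArg SmVar.Hom.hom h1) (congrArg SmVar.Hom.hom h2))

/-- The supertrace of an operator on the cohomology. -/
noncomputable def str (W : WeilCohomology.{u, v} ops) (X : 𝒱.Obj) :
    Module.End W.K (W.H X) →ₗ[W.K] W.K :=
  LinearMap.trace W.K (W.H X) ∘ₗ LinearMap.mulLeft W.K (par (W.isInternal X))

lemma str_apply (a : Module.End W.K (W.H X)) :
    str W X a = LinearMap.trace W.K (W.H X) (par (W.isInternal X) * a) := rfl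

lemma swap_swap (X Y : 𝒱.Obj) : swap X Y ≫ swap Y X = 𝟙 _ := by
  apply prod_ext
  · rw [Category.assoc, swap_fst, swap_snd, Category.id_comp]
  · rw [Category.assoc, swap_snd, swap_fst, Category.id_comp]

lemma map_swap_swap (c : W.H (X.prod Y)) : W.map (swap X Y) (W.map (swap Y X) c) = c := by
  rw [← W.map_comp, swap_swap, W.map_id]

lemma swap_q1 (X Z : 𝒱.Obj) : swap (X.prod Z) (X.prod Z) ≫ q1 X Z = q1 X Z ≫ swap X X := by
  apply prod_ext
  · rw [Category.assoc, Category.assoc, swap_fst, q1, Obj.lift_fst, Obj.lift_snd, ← Category.assoc,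
      swap_fst]
  · rw [Category.assoc, Category.assoc, swap_snd, q1, Obj.lift_fst, Obj.lift_snd, ← Category.assoc,
      swap_snd]

lemma swap_q2 (X Z : 𝒱.Obj) : swap (X.prod Z) (X.prod Z) ≫ q2 X Z = q2 X Z ≫ swap Z Z := by
  apply prod_ext
  · rw [Category.assoc, Category.assoc, swap_fst, q2, Obj.lift_fst, Obj.lift_snd, ← Category.assoc,
      swap_fst]
  · rw [Category.assoc, Category.assoc, swap_snd, q2, Obj.lift_fst, Obj.lift_snd, ← Category.assoc,
      swap_snd]

lemma extOp_corr (f : W.H (X.prod X)) {s : ℕ} {g : W.H (Z.prod Z)} (hg : g ∈ W.gr _ (2 * s)) :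
    extOp W (W.corr f) (W.corr g) = W.corr (W.map (q1 X Z) f * W.map (q2 X Z) g) := by
  apply ext_kunneth_lin
  intro a b
  rw [extOp_tmul, corr_ext _ hg]

lemma str_corr_mul {p : ℕ} {c : W.H (X.prod X)} (hc : c ∈ W.gr _ (2 * p)) (d : W.H (X.prod X)) :
    str W X (W.corr c * W.corr d) = W.tr (X.prod X) (c * W.map (swap X X) d) := by
  rw [tr_mul_eq_trace hc, map_swap_swap, str_apply, mul_assoc]

lemma str_ext {p s : ℕ} {c : W.H ((X.prod Z).prod (X.prod Z))} (hc : c ∈ W.gr _ (2 * p))
    (f : W.H (X.prod X)) {g : W.H (Z.prod Z)} (hg : g ∈ W.gr _ (2 * s)) :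
    str W (X.prod Z) (W.corr c * extOp W (W.corr f) (W.corr g)) =
      W.tr _ (c * (W.map (q1 X Z) (W.map (swap X X) f) * W.map (q2 X Z) (W.map (swap Z Z) g))) := by
  rw [extOp_corr f hg, str_corr_mul hc, map_mul (W.map (swap (X.prod Z) (X.prod Z))),
    ← W.map_comp, ← W.map_comp, ← W.map_comp, ← W.map_comp, swap_q1, swap_q2]

/-- The partial trace over the second factor. -/
lemma str_ext_left {p s : ℕ} {c : W.H ((X.prod Z).prod (X.prod Z))} (hc : c ∈ W.gr _ (2 * p))
    (f : W.H (X.prod X)) {g : W.H (Z.prod Z)} (hg : g ∈ W.gr _ (2 * s)) {m : ℕ}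
    (hm : p + s = m + 2 * Z.dim) :
    str W (X.prod Z) (W.corr c * extOp W (W.corr f) (W.corr g)) =
      str W X (W.corr (W.push (q1 X Z) (c * W.map (q2 X Z) (W.map (swap Z Z) g))) * W.corr f) := by
  have hg' : W.map (q2 X Z) (W.map (swap Z Z) g) ∈ W.gr _ (2 * s) :=
    W.map_mem _ (W.map_mem _ hg)
  have h1 := W.push_mem (q1 X Z) (W.mul_mem hc hg')
  have h2 : W.push (q1 X Z) (c * W.map (q2 X Z) (W.map (swap Z Z) g)) ∈
      W.gr (X.prod X) (2 * m) := by
    rwa [show ((2 * p + 2 * s : ℕ) : ℤ) + 2 * (((X.prod X).dim : ℤ) -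
      ((X.prod Z).prod (X.prod Z)).dim) = ((2 * m : ℕ) : ℤ) by
        simp only [dim_prod]; push_cast; omega, grZ_natCast] at h1
  rw [str_ext hc f hg, str_corr_mul h2, W.tr_push, mul_assoc, W.even_comm hg']

/-- The partial trace over the first factor. -/
lemma str_ext_right {p s : ℕ} {c : W.H ((X.prod Z).prod (X.prod Z))} (hc : c ∈ W.gr _ (2 * p))
    {f : W.H (X.prod X)} (hf : f ∈ W.gr _ (2 * s)) {r : ℕ} {g : W.H (Z.prod Z)}
    (hg : g ∈ W.gr _ (2 * r)) {m : ℕ} (hm : p + s = m + 2 * X.dim) :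
    str W (X.prod Z) (W.corr c * extOp W (W.corr f) (W.corr g)) =
      str W Z (W.corr (W.push (q2 X Z) (c * W.map (q1 X Z) (W.map (swap X X) f))) * W.corr g) := by
  have hf' : W.map (q1 X Z) (W.map (swap X X) f) ∈ W.gr _ (2 * s) :=
    W.map_mem _ (W.map_mem _ hf)
  have h1 := W.push_mem (q2 X Z) (W.mul_mem hc hf')
  have h2 : W.push (q2 X Z) (c * W.map (q1 X Z) (W.map (swap X X) f)) ∈
      W.gr (Z.prod Z) (2 * m) := by
    rwa [show ((2 * p + 2 * s : ℕ) : ℤ) + 2 * (((Z.prod Z).dim : ℤ) -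
      ((X.prod Z).prod (X.prod Z)).dim) = ((2 * m : ℕ) : ℤ) by
        simp only [dim_prod]; push_cast; omega, grZ_natCast] at h1
  rw [str_ext hc f hg, str_corr_mul h2, W.tr_push, mul_assoc]

lemma push_eq_zero {S T : 𝒱.Obj} (f : S ⟶ T) {i : ℕ} {a : W.H S} (ha : a ∈ W.gr S i)
    (hi : (i : ℤ) + 2 * ((T.dim : ℤ) - S.dim) < 0) : W.push f a = 0 := by
  have h1 := W.push_mem f ha
  rw [grZ_of_neg hi] at h1
  exact (Submodule.mem_bot _).1 h1

/-- **The partial trace over the second factor is algebraic.** -/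
theorem exists_ptrace {d e : ℤ} {A : Module.End W.K (W.H (X.prod Z))}
    (hA : A ∈ KOp W (X.prod Z) (X.prod Z) d) {ψ : Module.End W.K (W.H Z)}
    (hψ : ψ ∈ KOp W Z Z e) :
    ∃ T ∈ KOp W X X (d + e), ∀ f : W.H (X.prod X),
      str W (X.prod Z) (A * extOp W (W.corr f) ψ) = str W X (T * W.corr f) := by
  induction hA using Submodule.span_induction with
  | mem x hx =>
    obtain ⟨p, hp, z, hz, rfl⟩ := hx
    induction hψ using Submodule.span_induction with
    | mem x hx =>
      obtain ⟨s, hs, w, hw, rfl⟩ := hx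
      rw [dim_prod] at hp
      push_cast at hp
      by_cases hm : 2 * Z.dim ≤ p + s
      · obtain ⟨m, hm⟩ := Nat.exists_eq_add_of_le hm
        have hcyc : ((X.prod Z).prod (X.prod Z)).IsCyc (p + s)
            (ops.mul z (ops.pull (q2 X Z) (ops.pull (swap Z Z) w))) :=
          ops.mul_mem hz (ops.pull_mem _ (ops.pull_mem _ hw))
        have hpush := ops.push_mem (q1 X Z) (q := m) hcyc
          (by simp only [dim_prod]; omega)
        refine ⟨_, KOp.gen (d := d + e) (by omega) hpush, fun f => ?_⟩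
        rw [W.cl_push, W.cl_mul, W.cl_pull, W.cl_pull]
        exact str_ext_left (W.cl_mem hz) f (W.cl_mem hw) (m := m) (by omega)
      · refine ⟨0, Submodule.zero_mem _, fun f => ?_⟩
        have hw' : W.map (q2 X Z) (W.map (swap Z Z) (W.cl _ w)) ∈ W.gr _ (2 * s) :=
          W.map_mem _ (W.map_mem _ (W.cl_mem hw))
        have h0 : W.push (q1 X Z) (W.cl _ z * W.map (q2 X Z) (W.map (swap Z Z) (W.cl _ w))) = 0 :=
          push_eq_zero _ (W.mul_mem (W.cl_mem hz) hw')
            (by simp only [dim_prod]; push_cast; omega)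
        rw [str_ext (W.cl_mem hz) f (W.cl_mem hw), ← W.even_comm hw', ← mul_assoc, ← W.tr_push,
          h0, zero_mul, zero_mul, map_zero, map_zero]
    | zero =>
      refine ⟨0, Submodule.zero_mem _, fun f => ?_⟩
      rw [extOp_zero_right, mul_zero, zero_mul, map_zero, map_zero]
    | add x y _ _ hx hy =>
      obtain ⟨T, hT, h1⟩ := hx
      obtain ⟨T', hT', h1'⟩ := hy
      refine ⟨T + T', Submodule.add_mem _ hT hT', fun f => ?_⟩
      rw [extOp_add_right, mul_add, map_add, h1, h1', add_mul, map_add]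
    | smul a x _ hx =>
      obtain ⟨T, hT, h1⟩ := hx
      refine ⟨a • T, Submodule.smul_mem _ _ hT, fun f => ?_⟩
      rw [extOp_smul_right, mul_smul_comm, map_smul, h1, smul_mul_assoc, map_smul]
  | zero =>
    refine ⟨0, Submodule.zero_mem _, fun f => ?_⟩
    rw [zero_mul, zero_mul, map_zero, map_zero]
  | add x y _ _ hx hy =>
    obtain ⟨T, hT, h1⟩ := hx
    obtain ⟨T', hT', h1'⟩ := hy
    refine ⟨T + T', Submodule.add_mem _ hT hT', fun f => ?_⟩
    rw [add_mul, map_add, h1, h1', add_mul, map_add]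
  | smul a x _ hx =>
    obtain ⟨T, hT, h1⟩ := hx
    refine ⟨a • T, Submodule.smul_mem _ _ hT, fun f => ?_⟩
    rw [smul_mul_assoc, map_smul, h1, smul_mul_assoc, map_smul]

/-- **The partial trace over the first factor is algebraic.** -/
theorem exists_ptrace' {d e : ℤ} {A : Module.End W.K (W.H (X.prod Z))}
    (hA : A ∈ KOp W (X.prod Z) (X.prod Z) d) {φ : Module.End W.K (W.H X)}
    (hφ : φ ∈ KOp W X X e) :
    ∃ T ∈ KOp W Z Z (d + e), ∀ {r : ℕ} {g : W.H (Z.prod Z)}, g ∈ W.gr _ (2 * r) →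
      str W (X.prod Z) (A * extOp W φ (W.corr g)) = str W Z (T * W.corr g) := by
  induction hA using Submodule.span_induction with
  | mem x hx =>
    obtain ⟨p, hp, z, hz, rfl⟩ := hx
    induction hφ using Submodule.span_induction with
    | mem x hx =>
      obtain ⟨s, hs, w, hw, rfl⟩ := hx
      rw [dim_prod] at hp
      push_cast at hp
      by_cases hm : 2 * X.dim ≤ p + s
      · obtain ⟨m, hm⟩ := Nat.exists_eq_add_of_le hm
        have hcyc : ((X.prod Z).prod (X.prod Z)).IsCyc (p + s)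
            (ops.mul z (ops.pull (q1 X Z) (ops.pull (swap X X) w))) :=
          ops.mul_mem hz (ops.pull_mem _ (ops.pull_mem _ hw))
        have hpush := ops.push_mem (q2 X Z) (q := m) hcyc
          (by simp only [dim_prod]; omega)
        refine ⟨_, KOp.gen (d := d + e) (by omega) hpush, fun hg => ?_⟩
        rw [W.cl_push, W.cl_mul, W.cl_pull, W.cl_pull]
        exact str_ext_right (W.cl_mem hz) (W.cl_mem hw) hg (m := m) (by omega)
      · refine ⟨0, Submodule.zero_mem _, fun hg => ?_⟩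
        have hw' : W.map (q1 X Z) (W.map (swap X X) (W.cl _ w)) ∈ W.gr _ (2 * s) :=
          W.map_mem _ (W.map_mem _ (W.cl_mem hw))
        have h0 : W.push (q2 X Z) (W.cl _ z * W.map (q1 X Z) (W.map (swap X X) (W.cl _ w))) = 0 :=
          push_eq_zero _ (W.mul_mem (W.cl_mem hz) hw')
            (by simp only [dim_prod]; push_cast; omega)
        rw [str_ext (W.cl_mem hz) _ hg, ← mul_assoc, ← W.tr_push, h0, zero_mul, zero_mul,
          map_zero, map_zero]
    | zero =>
      refine ⟨0, Submodule.zero_mem _, fun _ => ?_⟩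
      rw [extOp_zero_left, mul_zero, zero_mul, map_zero, map_zero]
    | add x y _ _ hx hy =>
      obtain ⟨T, hT, h1⟩ := hx
      obtain ⟨T', hT', h1'⟩ := hy
      refine ⟨T + T', Submodule.add_mem _ hT hT', fun hg => ?_⟩
      rw [extOp_add_left, mul_add, map_add, h1 hg, h1' hg, add_mul, map_add]
    | smul a x _ hx =>
      obtain ⟨T, hT, h1⟩ := hx
      refine ⟨a • T, Submodule.smul_mem _ _ hT, fun hg => ?_⟩
      rw [extOp_smul_left, mul_smul_comm, map_smul, h1 hg, smul_mul_assoc, map_smul]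
  | zero =>
    refine ⟨0, Submodule.zero_mem _, fun _ => ?_⟩
    rw [zero_mul, zero_mul, map_zero, map_zero]
  | add x y _ _ hx hy =>
    obtain ⟨T, hT, h1⟩ := hx
    obtain ⟨T', hT', h1'⟩ := hy
    refine ⟨T + T', Submodule.add_mem _ hT hT', fun hg => ?_⟩
    rw [add_mul, map_add, h1 hg, h1' hg, add_mul, map_add]
  | smul a x _ hx =>
    obtain ⟨T, hT, h1⟩ := hx
    refine ⟨a • T, Submodule.smul_mem _ _ hT, fun hg => ?_⟩
    rw [smul_mul_assoc, map_smul, h1 hg, smul_mul_assoc, map_smul]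

/-- The trace of an external product. -/
lemma str_extOp (f : W.H (X.prod X)) {s : ℕ} {g : W.H (Z.prod Z)} (hg : g ∈ W.gr _ (2 * s)) :
    str W (X.prod Z) (extOp W (W.corr f) (W.corr g)) = str W X (W.corr f) * str W Z (W.corr g) := by
  have e1 : diag (X.prod Z) ≫ q1 X Z = fst X Z ≫ diag X := by
    apply prod_ext
    · rw [Category.assoc, Category.assoc, q1, Obj.lift_fst, diag, ← Category.assoc, Obj.lift_fst,
        diag, Obj.lift_fst, Category.id_comp, Category.comp_id]
    · rw [Category.assoc, Category.assoc, q1, Obj.lift_snd, diag, ← Category.assoc, Obj.lift_snd,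
        diag, Obj.lift_snd, Category.id_comp, Category.comp_id]
  have e2 : diag (X.prod Z) ≫ q2 X Z = snd X Z ≫ diag Z := by
    apply prod_ext
    · rw [Category.assoc, Category.assoc, q2, Obj.lift_fst, diag, ← Category.assoc, Obj.lift_fst,
        diag, Obj.lift_fst, Category.id_comp, Category.comp_id]
    · rw [Category.assoc, Category.assoc, q2, Obj.lift_snd, diag, ← Category.assoc, Obj.lift_snd,
        diag, Obj.lift_snd, Category.id_comp, Category.comp_id]
  rw [extOp_corr f hg, str_apply, str_apply, str_apply, trace_par_corr, trace_par_corr,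
    trace_par_corr, map_mul, ← W.map_comp, ← W.map_comp, e1, e2, W.map_comp, W.map_comp, W.tr_prod]

end Pool.Agent.N190.CB
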